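import Pool.Agent.H27M.Meet

/-! Arithmetic of the parameters. -/

open Finset

namespace Pool.Agent.H27M

/-- The parameters of a design all of whose pencils of lines are sunflowers
(`l = s + 1` points on a line, `c + 1` lines through a point in a block). -/
def Par (b v r k lam s c : ℕ) : Prop :=
  1 ≤ s ∧ s ≤ c ∧ c + 1 ≤ lam ∧ k = 1 + (c + 1) * s ∧ v = 1 + s * (1 + lam * c) ∧
    r * (c + 1) = lam * (1 + lam * c) ∧ s + 1 ∣ (c + 1) * c ∧ b * k = v * r

section
variable {α : Type*} [Fintype α] [DecidableEq α] {Bl : Finset (Finset α)} {r k lam : ℕ}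

theorem HD.params (h : HD Bl r k lam) (hb : Fintype.card α < Bl.card) (hlam : 3 ≤ lam) :
    (∃ t, 2 ≤ t ∧ t * (t + 1) ≤ 2 * lam ∧ Fintype.card α + 2 * t ≤ t * k + 2) ∨
    (∃ s c, Par Bl.card (Fintype.card α) r k lam s c ∧
      (s + 1) * (k * lam) + k ≤ (s + 1) * r + k * k ∧
      (c + 1 = lam → (s + 1) ∣ k ∨ (s + 1) * r ≤ k * lam + (s + 1))) := by
  obtain ⟨hk3, hkv, hrk, hne⟩ := h.basic hb hlam
  have c1 := h.count1
  obtain ⟨x⟩ : Nonempty α := by rw [← Fintype.card_pos_iff]; omega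
  have c2 := h.count2 x
  rcases h.split2 (by omega) with ⟨f, t, hf2, hfk, ht2, htl, hv⟩ | hS
  · left
    refine ⟨t, ht2, htl, ?_⟩
    obtain ⟨p, rfl⟩ : ∃ p, k = f + p := ⟨k - f, by omega⟩
    obtain ⟨g, rfl⟩ : ∃ g, f = g + 2 := ⟨f - 2, by omega⟩
    have e : g + 2 + p - (g + 2) = p := by omega
    rw [e] at hv
    rw [hv]
    obtain ⟨u, rfl⟩ : ∃ u, t = u + 2 := ⟨t - 2, by omega⟩
    nlinarith
  · right
    obtain ⟨l, K, hl2, hlK, hKl, hkK, hlk, hv, hdvd, hall⟩ := h.linesB (by omega) hS (by omega) hne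
    have hineq := h.meet_ineq (by omega) hS hall hne
    have hdh := h.dh (by omega) hS hl2 hall hne
    obtain ⟨s, rfl⟩ : ∃ s, l = s + 1 := ⟨l - 1, by omega⟩
    obtain ⟨c, rfl⟩ : ∃ c, K = c + 1 := ⟨K - 1, by omega⟩
    have hk : k = 1 + (c + 1) * s := by
      have : s + 1 - 1 = s := by omega
      rw [this] at hkK
      omega
    have hks : k - (s + 1) = c * s := by
      rw [hk]
      have : (c + 1) * s = c * s + s := by ring
      omega
    have hv' : Fintype.card α = 1 + s * (1 + lam * c) := by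
      rw [hv, hks]; ring
    refine ⟨s, c, ⟨by omega, by omega, hKl, hk, hv', ?_, ?_, by rw [← c1]⟩, ?_, ?_⟩
    · have e1 : Fintype.card α - 1 = s * (1 + lam * c) := by omega
      have e2 : k - 1 = (c + 1) * s := by omega
      rw [e1, e2] at c2
      have : s * (r * (c + 1)) = s * (lam * (1 + lam * c)) := by
        calc s * (r * (c + 1)) = r * ((c + 1) * s) := by ring
          _ = lam * (s * (1 + lam * c)) := c2.symm
          _ = _ := by ring
      exact Nat.eq_of_mul_eq_mul_left (by omega) this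
    · -- `k K ≡ - K (K - 1)`
      rw [hk] at hdvd
      have e : (1 + (c + 1) * s) * (c + 1) + (c + 1) * c = (s + 1) * ((c + 1) * (c + 1)) := by ring
      exact (Nat.dvd_add_right hdvd).1 (e ▸ Dvd.intro _ rfl)
    · have : k ≤ k * k := Nat.le_mul_self k
      omega
    · intro hcl
      apply hdh
      rw [hk, hcl]
      simp

end

/-- The symmetric case is excluded. -/
theorem Par.not_sym {b v r k lam s c : ℕ} (h : Par b v r k lam s c) (hb : v < b)
    (hc : c + 1 = lam) : s < c := by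
  obtain ⟨h1, h2, h3, hk, hv, hr, _, hbk⟩ := h
  rcases h2.lt_or_eq with h4 | h4
  · exact h4
  exfalso
  subst h4
  subst hc
  have hr' : r = 1 + (s + 1) * s := by
    have : (s + 1) * r = (s + 1) * (1 + (s + 1) * s) := by rw [← hr]; ring
    exact Nat.eq_of_mul_eq_mul_left (by omega) this
  rw [hr', ← hk] at hbk
  have hk0 : 0 < k := by omega
  have := Nat.eq_of_mul_eq_mul_right hk0 hbk
  omega

theorem Par.base {b v r k lam s c : ℕ} (h : Par b v r k lam s c) (hb : v < b) (hlam : 3 ≤ lam) :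
    (c + 1 = lam ∧ s + 1 = c) ∨ v < (lam - 1) ^ 3 := by
  have hns := h.not_sym hb
  obtain ⟨h1, h2, h3, hk, hv, hr, _, hbk⟩ := h
  obtain ⟨i, rfl⟩ : ∃ i, lam = c + 1 + i := ⟨lam - (c + 1), by omega⟩
  have e : c + 1 + i - 1 = c + i := by omega
  rw [e]
  by_cases hi : i = 0
  · subst hi
    have h4 := hns rfl
    by_cases h5 : s + 1 = c
    · exact Or.inl ⟨rfl, h5⟩
    right
    obtain ⟨m, rfl⟩ : ∃ m, c = s + 2 + m := ⟨c - (s + 2), by omega⟩
    rw [hv]
    simp only [add_zero]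
    have : (s + 2 + m) ^ 3 = 1 + (s + 1 + m) * (1 + (s + 2 + m + 1) * (s + 2 + m)) := by ring
    rw [this]
    have : s * (1 + (s + 2 + m + 1) * (s + 2 + m)) <
      (s + 1 + m) * (1 + (s + 2 + m + 1) * (s + 2 + m)) :=
      Nat.mul_lt_mul_of_pos_right (by omega) (by positivity)
    omega
  · right
    obtain ⟨j, rfl⟩ : ∃ j, i = j + 1 := ⟨i - 1, by omega⟩
    obtain ⟨m, rfl⟩ : ∃ m, c = s + m := ⟨c - s, by omega⟩
    obtain ⟨t, rfl⟩ : ∃ t, s = t + 1 := ⟨s - 1, by omega⟩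
    rw [hv]
    ring_nf
    nlinarith [Nat.zero_le (t * m), Nat.zero_le (t * j), Nat.zero_le (m * j),
      Nat.zero_le (t * m * j), Nat.zero_le (t ^ 2 * j), Nat.zero_le (t * m ^ 2),
      Nat.zero_le (m ^ 2 * j), Nat.zero_le (t * j ^ 2), Nat.zero_le (m * j ^ 2),
      Nat.zero_le (j ^ 3), Nat.zero_le (m ^ 3), Nat.zero_le (t ^ 2 * m)]

theorem Par.eqcase {b v r k lam s c : ℕ} (h : Par b v r k lam s c)
    (hc : c + 1 = lam) (hs : s + 1 = c) :
    v = (lam - 1) ^ 3 ∧ k = (lam - 1) ^ 2 ∧ r = (lam - 1) ^ 2 + (lam - 1) + 1 ∧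
      b = (lam - 1) ^ 3 + (lam - 1) ^ 2 + (lam - 1) := by
  obtain ⟨h1, h2, h3, hk, hv, hr, _, hbk⟩ := h
  subst hc
  subst hs
  have e : s + 1 + 1 - 1 = s + 1 := by omega
  rw [e]
  have hk' : k = (s + 1) ^ 2 := by rw [hk]; ring
  have hv' : v = (s + 1) ^ 3 := by rw [hv]; ring
  have hr' : r = (s + 1) ^ 2 + (s + 1) + 1 := by
    have : (s + 1 + 1) * r = (s + 1 + 1) * ((s + 1) ^ 2 + (s + 1) + 1) := by
      calc (s + 1 + 1) * r = r * (s + 1 + 1) := by ring
        _ = _ := hr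
        _ = _ := by ring
    exact Nat.eq_of_mul_eq_mul_left (by omega) this
  refine ⟨hv', hk', hr', ?_⟩
  rw [hk', hv', hr'] at hbk
  have : (s + 1) ^ 2 * b = (s + 1) ^ 2 * ((s + 1) ^ 3 + (s + 1) ^ 2 + (s + 1)) := by
    calc (s + 1) ^ 2 * b = b * (s + 1) ^ 2 := by ring
      _ = _ := hbk
      _ = _ := by ring
  exact Nat.eq_of_mul_eq_mul_left (by positivity) this

end Pool.Agent.H27M
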