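import Mathlib

/-! Basic facts on designs whose blocks are the hyperplanes of a matroid (this file is taken from
an earlier library result on the same page). -/

namespace Pool.Agent.H27M

section defs
open Set


/-- Hyperplanes of a matroid: flats of rank one less than the rank of the matroid. -/
def IsHyp {α : Type*} (M : Matroid α) (H : Set α) : Prop :=
  M.IsFlat H ∧ M.eRk H + 1 = M.eRank

/-- `(b, v, r, k, lam)` is matroidal: some matroid on `v` points has as its set of hyperplanes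
exactly the set of (pairwise distinct) blocks of a balanced incomplete block design with these
parameters. -/
def Matroidal (b v r k lam : ℕ) : Prop :=
  ∃ (M : Matroid (Fin v)) (Bl : Finset (Finset (Fin v))), M.E = Set.univ ∧
    (∀ B : Finset (Fin v), B ∈ Bl ↔ IsHyp M (B : Set (Fin v))) ∧
    Bl.card = b ∧ (∀ B ∈ Bl, B.card = k) ∧
    (∀ x : Fin v, (Bl.filter (fun B => x ∈ B)).card = r) ∧
    (∀ x y : Fin v, x ≠ y → (Bl.filter (fun B => x ∈ B ∧ y ∈ B)).card = lam)

/-- The hyperplane exchange property. -/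
theorem hyp_exchange {α : Type*} [Finite α] {M : Matroid α} (hE : M.E = Set.univ) {H₁ H₂ : Set α}
    (h₁ : IsHyp M H₁) (h₂ : IsHyp M H₂) (hne : H₁ ≠ H₂) (z : α) :
    ∃ H, IsHyp M H ∧ z ∈ H ∧ H₁ ∩ H₂ ⊆ H := by
  have : M.Finite := ⟨Set.toFinite _⟩
  have htop : ∀ X, M.eRk X ≠ ⊤ := fun X => by
    rw [Matroid.eRk_ne_top_iff]; exact M.isRkFinite_set X
  set F := H₁ ∩ H₂ with hF
  have hlt : M.eRk F < M.eRk H₁ := by
    rw [lt_iff_not_ge]
    intro hge
    have hc := (M.isRkFinite_set F).closure_eq_closure_of_subset_of_eRk_ge_eRk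
      (Set.inter_subset_left : F ⊆ H₁) hge
    rw [h₁.1.closure] at hc
    have h12 : H₁ ⊆ H₂ := by
      rw [← hc]
      have := M.closure_subset_closure (Set.inter_subset_right : F ⊆ H₂)
      rwa [h₂.1.closure] at this
    have heq : M.eRk H₂ ≤ M.eRk H₁ := by
      have e := h₁.2.trans h₂.2.symm
      have := (ENat.add_left_injective_of_ne_top (by norm_num : (1 : ℕ∞) ≠ ⊤)) e
      exact this.ge
    have hc2 := (M.isRkFinite_set H₁).closure_eq_closure_of_subset_of_eRk_ge_eRk h12 heq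
    rw [h₁.1.closure, h₂.1.closure] at hc2
    exact hne hc2
  have hrk : M.eRk (insert z F) < M.eRank := by
    have a1 : M.eRk (insert z F) ≤ M.eRk F + 1 := M.eRk_insert_le_add_one z F
    have a2 : M.eRk F + 1 ≤ M.eRk H₁ := Order.add_one_le_of_lt hlt
    have a3 : M.eRk H₁ < M.eRank := by
      rw [← h₁.2]
      exact ENat.lt_add_one_iff (htop _) |>.2 le_rfl
    exact lt_of_le_of_lt (a1.trans a2) a3
  obtain ⟨I, hI⟩ := M.exists_isBasis (insert z F) (by rw [hE]; exact Set.subset_univ _)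
  obtain ⟨B, hB, hIB⟩ := hI.indep.exists_isBase_superset
  have hne' : I ≠ B := by
    intro h
    rw [← hI.encard_eq_eRk, h, hB.encard_eq_eRank] at hrk
    exact lt_irrefl _ hrk
  obtain ⟨e, heB, heI⟩ := Set.exists_of_ssubset (hIB.ssubset_of_ne hne')
  refine ⟨M.closure (B \ {e}), ⟨M.isFlat_closure _, ?_⟩, ?_, ?_⟩
  · rw [Matroid.eRk_closure_eq, (hB.indep.subset Set.sdiff_subset).eRk_eq_encard,
      Set.encard_sdiff_singleton_add_one heB, hB.encard_eq_eRank]
  · have : insert z F ⊆ M.closure (B \ {e}) := by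
      refine hI.subset_closure.trans (M.closure_subset_closure ?_)
      intro i hi
      exact ⟨hIB hi, fun h => heI (by rw [Set.mem_singleton_iff] at h; rwa [h] at hi)⟩
    exact this (Set.mem_insert _ _)
  · have : insert z F ⊆ M.closure (B \ {e}) := by
      refine hI.subset_closure.trans (M.closure_subset_closure ?_)
      intro i hi
      exact ⟨hIB hi, fun h => heI (by rw [Set.mem_singleton_iff] at h; rwa [h] at hi)⟩
    exact (Set.subset_insert _ _).trans this


end defs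

section core
open Finset


/-- A design whose blocks satisfy the hyperplane exchange property. -/
structure HD {α : Type*} [Fintype α] [DecidableEq α] (Bl : Finset (Finset α)) (r k lam : ℕ) :
    Prop where
  hk : ∀ B ∈ Bl, B.card = k
  hr : ∀ x, (Bl.filter (fun B => x ∈ B)).card = r
  hl : ∀ x y, x ≠ y → (Bl.filter (fun B => x ∈ B ∧ y ∈ B)).card = lam
  ex : ∀ B₁ ∈ Bl, ∀ B₂ ∈ Bl, B₁ ≠ B₂ → ∀ z, z ∉ B₁ → z ∉ B₂ → ∃ B ∈ Bl, z ∈ B ∧ B₁ ∩ B₂ ⊆ B
  pr : ∀ B ∈ Bl, B ≠ Finset.univ

section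
variable {α : Type*} [Fintype α] [DecidableEq α] {Bl : Finset (Finset α)} {r k lam : ℕ}

theorem HD.count1 (h : HD Bl r k lam) : Fintype.card α * r = Bl.card * k := by
  have e1 : ∑ x : α, (Bl.filter (fun B => x ∈ B)).card = Fintype.card α * r := by
    rw [Finset.sum_congr rfl (fun x _ => h.hr x)]
    simp
  have e2 : ∑ B ∈ Bl, B.card = Bl.card * k := by
    rw [Finset.sum_congr rfl (fun B hB => h.hk B hB)]
    simp
  rw [← e1, ← e2]
  simp only [Finset.card_eq_sum_ones, Finset.sum_filter]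
  rw [Finset.sum_comm]
  apply Finset.sum_congr rfl
  intro B _
  simp

theorem HD.count2 (h : HD Bl r k lam) (x : α) :
    lam * (Fintype.card α - 1) = r * (k - 1) := by
  have e1 : ∑ y ∈ Finset.univ.erase x, (Bl.filter (fun B => x ∈ B ∧ y ∈ B)).card =
      lam * (Fintype.card α - 1) := by
    rw [Finset.sum_congr rfl (fun y hy => h.hl x y (Finset.ne_of_mem_erase hy).symm)]
    rw [Finset.sum_const, Finset.card_erase_of_mem (Finset.mem_univ x), Finset.card_univ,
      smul_eq_mul, mul_comm]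
  have e2 : ∑ B ∈ Bl.filter (fun B => x ∈ B), (B.erase x).card = r * (k - 1) := by
    have hc : ∀ B ∈ Bl.filter (fun B => x ∈ B), (B.erase x).card = k - 1 := by
      intro B hB
      rw [Finset.mem_filter] at hB
      rw [Finset.card_erase_of_mem hB.2, h.hk B hB.1]
    rw [Finset.sum_congr rfl hc, Finset.sum_const, h.hr x, smul_eq_mul]
  rw [← e1, ← e2]
  simp only [Finset.card_eq_sum_ones, Finset.sum_filter]
  rw [Finset.sum_comm]
  apply Finset.sum_congr rfl
  intro B _
  by_cases hx : x ∈ B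
  · simp only [hx, true_and, if_true]
    rw [← Finset.sum_filter]
    congr 1
    ext y
    simp [and_comm]
  · simp [hx]

/-- The pencil lemma. -/
theorem HD.pencil (h : HD Bl r k lam) (hlam : 2 ≤ lam) {x y : α} (hxy : x ≠ y) :
    ∃ (F : Finset α) (T : Finset (Finset α)), T ⊆ Bl.filter (fun B => x ∈ B ∧ y ∈ B) ∧
      2 ≤ T.card ∧ x ∈ F ∧ y ∈ F ∧ (∀ B ∈ T, F ⊆ B) ∧
      (∀ B ∈ T, ∀ B' ∈ T, B ≠ B' → B ∩ B' = F) ∧ (∀ z, ∃ B ∈ T, z ∈ B) ∧
      (∀ B ∈ Bl.filter (fun B => x ∈ B ∧ y ∈ B), F ⊆ B → B ∈ T) ∧ F.card < k ∧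
      Fintype.card α = F.card + T.card * (k - F.card) ∧
      (∀ B ∈ Bl.filter (fun B => x ∈ B ∧ y ∈ B), ∀ B' ∈ Bl.filter (fun B => x ∈ B ∧ y ∈ B),
        B ≠ B' → (B ∩ B').card ≤ F.card) := by
  set L := Bl.filter (fun B => x ∈ B ∧ y ∈ B) with hL
  have hLc : L.card = lam := h.hl x y hxy
  have hne : L.offDiag.Nonempty := by
    rw [← Finset.card_pos, Finset.offDiag_card, hLc]
    have : lam * 2 ≤ lam * lam := Nat.mul_le_mul_left lam hlam
    omega
  obtain ⟨⟨B₁, B₂⟩, hmem, hmax⟩ := Finset.exists_max_image L.offDiag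
    (fun p => (p.1 ∩ p.2).card) hne
  rw [Finset.mem_offDiag] at hmem
  obtain ⟨hB₁, hB₂, hB12⟩ := hmem
  simp only at hB₁ hB₂ hB12 hmax
  set F := B₁ ∩ B₂ with hF
  have hmL : ∀ B ∈ L, B ∈ Bl ∧ x ∈ B ∧ y ∈ B := fun B hB => by
    rw [hL, Finset.mem_filter] at hB; exact hB
  have hxF : x ∈ F := Finset.mem_inter.2 ⟨(hmL _ hB₁).2.1, (hmL _ hB₂).2.1⟩
  have hyF : y ∈ F := Finset.mem_inter.2 ⟨(hmL _ hB₁).2.2, (hmL _ hB₂).2.2⟩
  have hFk : F.card < k := by
    rw [← h.hk _ (hmL _ hB₁).1]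
    apply Finset.card_lt_card
    rw [Finset.ssubset_iff_subset_ne]
    refine ⟨Finset.inter_subset_left, fun heq => hB12 ?_⟩
    have : B₁ ⊆ B₂ := by rw [← heq]; exact Finset.inter_subset_right
    exact Finset.eq_of_subset_of_card_le this (by rw [h.hk _ (hmL _ hB₁).1, h.hk _ (hmL _ hB₂).1])
  refine ⟨F, L.filter (fun B => F ⊆ B), Finset.filter_subset _ _, ?_, hxF, hyF, ?_, ?_, ?_, ?_,
    hFk, ?_, fun B hB B' hB' hne => hmax (B, B') (Finset.mem_offDiag.2 ⟨hB, hB', hne⟩)⟩
  · rw [← Finset.card_pair hB12]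
    apply Finset.card_le_card
    intro B hB
    rw [Finset.mem_insert, Finset.mem_singleton] at hB
    rw [Finset.mem_filter]
    rcases hB with rfl | rfl
    · exact ⟨hB₁, Finset.inter_subset_left⟩
    · exact ⟨hB₂, Finset.inter_subset_right⟩
  · intro B hB
    exact (Finset.mem_filter.1 hB).2
  · intro B hB B' hB' hBB'
    rw [Finset.mem_filter] at hB hB'
    symm
    apply Finset.eq_of_subset_of_card_le (Finset.subset_inter hB.2 hB'.2)
    exact hmax (B, B') (Finset.mem_offDiag.2 ⟨hB.1, hB'.1, hBB'⟩)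
  · intro z
    by_cases h1 : z ∈ B₁
    · exact ⟨B₁, Finset.mem_filter.2 ⟨hB₁, Finset.inter_subset_left⟩, h1⟩
    by_cases h2 : z ∈ B₂
    · exact ⟨B₂, Finset.mem_filter.2 ⟨hB₂, Finset.inter_subset_right⟩, h2⟩
    obtain ⟨B, hB, hz, hsub⟩ := h.ex _ (hmL _ hB₁).1 _ (hmL _ hB₂).1 hB12 z h1 h2
    exact ⟨B, Finset.mem_filter.2 ⟨by
      rw [hL, Finset.mem_filter]; exact ⟨hB, hsub hxF, hsub hyF⟩, hsub⟩, hz⟩
  · intro B hB hFB
    exact Finset.mem_filter.2 ⟨hB, hFB⟩
  · set T := L.filter (fun B => F ⊆ B) with hT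
    have hinter : ∀ B ∈ T, ∀ B' ∈ T, B ≠ B' → B ∩ B' = F := by
      intro B hB B' hB' hBB'
      rw [hT, Finset.mem_filter] at hB hB'
      symm
      apply Finset.eq_of_subset_of_card_le (Finset.subset_inter hB.2 hB'.2)
      exact hmax (B, B') (Finset.mem_offDiag.2 ⟨hB.1, hB'.1, hBB'⟩)
    have hcov : ∀ z, ∃ B ∈ T, z ∈ B := by
      intro z
      by_cases h1 : z ∈ B₁
      · exact ⟨B₁, Finset.mem_filter.2 ⟨hB₁, Finset.inter_subset_left⟩, h1⟩
      by_cases h2 : z ∈ B₂
      · exact ⟨B₂, Finset.mem_filter.2 ⟨hB₂, Finset.inter_subset_right⟩, h2⟩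
      obtain ⟨B, hB, hz, hsub⟩ := h.ex _ (hmL _ hB₁).1 _ (hmL _ hB₂).1 hB12 z h1 h2
      exact ⟨B, Finset.mem_filter.2 ⟨by
        rw [hL, Finset.mem_filter]; exact ⟨hB, hsub hxF, hsub hyF⟩, hsub⟩, hz⟩
    have hU : Finset.univ \ F = T.biUnion (fun B => B \ F) := by
      ext z
      simp only [Finset.mem_sdiff, Finset.mem_univ, true_and, Finset.mem_biUnion]
      constructor
      · intro hz
        obtain ⟨B, hB, hzB⟩ := hcov z
        exact ⟨B, hB, hzB, hz⟩
      · rintro ⟨B, _, _, hz⟩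
        exact hz
    have hcard : (Finset.univ \ F).card = T.card * (k - F.card) := by
      rw [hU, Finset.card_biUnion]
      · have hc : ∀ B ∈ T, (B \ F).card = k - F.card := by
          intro B hB
          have hB' := Finset.mem_filter.1 hB
          rw [Finset.card_sdiff_of_subset hB'.2, h.hk _ (hmL _ hB'.1).1]
        rw [Finset.sum_congr rfl hc, Finset.sum_const, smul_eq_mul]
      · intro B hB B' hB' hBB'
        show Disjoint (B \ F) (B' \ F)
        rw [Finset.disjoint_left]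
        intro z hz hz'
        rw [Finset.mem_sdiff] at hz hz'
        apply hz.2
        rw [← hinter B hB B' hB' hBB']
        exact Finset.mem_inter.2 ⟨hz.1, hz'.1⟩
    rw [← hcard, Finset.card_sdiff_of_subset (Finset.subset_univ F), Finset.card_univ]
    have : F.card ≤ Fintype.card α := Finset.card_le_univ F
    omega




/-- The line through two points: the intersection of all blocks containing both. -/
def ln (Bl : Finset (Finset α)) (x y : α) : Finset α :=
  Finset.univ.filter (fun z => ∀ B ∈ Bl, x ∈ B → y ∈ B → z ∈ B)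

theorem mem_ln {x y z : α} : z ∈ ln Bl x y ↔ ∀ B ∈ Bl, x ∈ B → y ∈ B → z ∈ B := by
  simp [ln]

theorem left_mem (x y : α) : x ∈ ln Bl x y := mem_ln.2 (fun _ _ h _ => h)
theorem right_mem (x y : α) : y ∈ ln Bl x y := mem_ln.2 (fun _ _ _ h => h)

theorem ln_sub {x y : α} {B : Finset α} (hB : B ∈ Bl) (hx : x ∈ B) (hy : y ∈ B) :
    ln Bl x y ⊆ B := fun _ hz => mem_ln.1 hz B hB hx hy

theorem HD.ln_eq (h : HD Bl r k lam) {x y x' y' : α} (hxy : x ≠ y) (hxy' : x' ≠ y')
    (hx : x' ∈ ln Bl x y) (hy : y' ∈ ln Bl x y) : ln Bl x' y' = ln Bl x y := by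
  have hsub : Bl.filter (fun B => x ∈ B ∧ y ∈ B) ⊆ Bl.filter (fun B => x' ∈ B ∧ y' ∈ B) := by
    intro B hB
    rw [Finset.mem_filter] at hB ⊢
    exact ⟨hB.1, mem_ln.1 hx B hB.1 hB.2.1 hB.2.2, mem_ln.1 hy B hB.1 hB.2.1 hB.2.2⟩
  have heq := Finset.eq_of_subset_of_card_le hsub (by rw [h.hl x y hxy, h.hl x' y' hxy'])
  ext z
  rw [mem_ln, mem_ln]
  constructor
  · intro hz B hB hxB hyB
    have : B ∈ Bl.filter (fun B => x' ∈ B ∧ y' ∈ B) := by
      rw [← heq, Finset.mem_filter]; exact ⟨hB, hxB, hyB⟩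
    rw [Finset.mem_filter] at this
    exact hz B hB this.2.1 this.2.2
  · intro hz B hB hxB hyB
    have : B ∈ Bl.filter (fun B => x ∈ B ∧ y ∈ B) := by
      rw [heq, Finset.mem_filter]; exact ⟨hB, hxB, hyB⟩
    rw [Finset.mem_filter] at this
    exact hz B hB this.2.1 this.2.2


theorem HD.basic (h : HD Bl r k lam) (hb : Fintype.card α < Bl.card) (hlam : 3 ≤ lam) :
    3 ≤ k ∧ k < Fintype.card α ∧ k < r ∧ Bl.Nonempty := by
  have hne : Bl.Nonempty := by rw [← Finset.card_pos]; omega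
  obtain ⟨B, hB⟩ := hne
  have hBv : B.card < Fintype.card α := by
    rw [← Finset.card_univ]
    exact Finset.card_lt_card (Finset.ssubset_univ_iff.2 (h.pr B hB))
  have hkv : k < Fintype.card α := by rw [← h.hk B hB]; exact hBv
  have c1 := h.count1
  have hk0 : k ≠ 0 := by
    intro h0
    have : Bl ⊆ {∅} := by
      intro C hC
      rw [Finset.mem_singleton, ← Finset.card_eq_zero, h.hk C hC, h0]
    have := Finset.card_le_card this
    rw [Finset.card_singleton] at this
    omega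
  have hrk : k < r := by
    by_contra hcon
    push Not at hcon
    have : Fintype.card α * r ≤ Fintype.card α * k := Nat.mul_le_mul_left _ hcon
    have h2 : (Fintype.card α + 1) * k ≤ Bl.card * k := Nat.mul_le_mul_right _ hb
    have h3 : (Fintype.card α + 1) * k = Fintype.card α * k + k := by ring
    omega
  -- two points
  have hv2 : 2 ≤ Fintype.card α := by omega
  obtain ⟨x, y, hxy⟩ := Fintype.exists_pair_of_one_lt_card (show 1 < Fintype.card α by omega)
  have hl := h.hl x y hxy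
  have hk3 : 3 ≤ k := by
    by_contra hcon
    have hsub : Bl.filter (fun B => x ∈ B ∧ y ∈ B) ⊆ {{x, y}} := by
      intro C hC
      rw [Finset.mem_filter] at hC
      rw [Finset.mem_singleton]
      symm
      apply Finset.eq_of_subset_of_card_le
      · intro a ha
        rw [Finset.mem_insert, Finset.mem_singleton] at ha
        rcases ha with rfl | rfl
        · exact hC.2.1
        · exact hC.2.2
      · rw [h.hk C hC.1, Finset.card_pair hxy]
        omega
    have := Finset.card_le_card hsub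
    rw [Finset.card_singleton, hl] at this
    omega
  exact ⟨hk3, hkv, hrk, ⟨B, hB⟩⟩


end

theorem hd_of_matroid {v r k lam : ℕ} {M : Matroid (Fin v)} {Bl : Finset (Finset (Fin v))}
    (hE : M.E = Set.univ) (hBl : ∀ B : Finset (Fin v), B ∈ Bl ↔ IsHyp M (B : Set (Fin v)))
    (hk : ∀ B ∈ Bl, B.card = k)
    (hr : ∀ x : Fin v, (Bl.filter (fun B => x ∈ B)).card = r)
    (hl : ∀ x y : Fin v, x ≠ y → (Bl.filter (fun B => x ∈ B ∧ y ∈ B)).card = lam) :
    HD Bl r k lam where
  hk := hk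
  hr := hr
  hl := hl
  ex := by
    intro B₁ h₁ B₂ h₂ hne z _ _
    rw [hBl] at h₁ h₂
    obtain ⟨H, hH, hz, hsub⟩ := hyp_exchange hE h₁ h₂ (fun e => hne (Finset.coe_injective e)) z
    classical
    refine ⟨H.toFinite.toFinset, ?_, ?_, ?_⟩
    · rw [hBl, Set.Finite.coe_toFinset]; exact hH
    · rw [Set.Finite.mem_toFinset]; exact hz
    · intro a ha
      rw [Set.Finite.mem_toFinset]
      rw [Finset.mem_inter] at ha
      exact hsub ⟨Finset.mem_coe.2 ha.1, Finset.mem_coe.2 ha.2⟩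
  pr := by
    intro B hB hu
    rw [hBl, hu] at hB
    have h2 := hB.2
    rw [Finset.coe_univ, ← hE, Matroid.eRk_ground] at h2
    have : M.Finite := ⟨Set.toFinite _⟩
    have htop : M.eRank ≠ ⊤ := by
      rw [Matroid.eRank_ne_top_iff]; infer_instance
    have := (ENat.lt_add_one_iff htop (m := M.eRank)).2 le_rfl
    rw [h2] at this
    exact lt_irrefl _ this


end core

end Pool.Agent.H27M
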