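import Pool.Agent.H27M.Nine

/-! The conclusion for designs. -/

open Finset

namespace Pool.Agent.H27M

theorem fewB {v k r lam t : ℕ} (hkr : k < r) (c2 : lam * (v - 1) = r * (k - 1)) (hlam : 3 ≤ lam)
    (ht : 2 ≤ t) (htl : t * (t + 1) ≤ 2 * lam) (hv : v + 2 * t ≤ t * k + 2) (hk3 : 3 ≤ k)
    (hkv : k < v) : v + 2 * lam + 4 ≤ 2 * lam ^ 2 := by
  have h0 : (k + 1) * (k - 1) ≤ lam * (v - 1) := by
    rw [c2]; exact Nat.mul_le_mul_right _ hkr
  obtain ⟨j, rfl⟩ : ∃ j, k = j + 1 := ⟨k - 1, by omega⟩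
  obtain ⟨m, rfl⟩ : ∃ m, v = m + 1 := ⟨v - 1, by omega⟩
  have e1 : j + 1 - 1 = j := by omega
  have e2 : m + 1 - 1 = m := by omega
  rw [e1, e2] at h0
  have hkt : j + 1 < lam * t := by
    by_contra hcon
    push Not at hcon
    zify at *
    have a1 : (lam : ℤ) * t * (j + 1) ≤ (j + 1) * (j + 1) :=
      mul_le_mul_of_nonneg_right hcon (by positivity)
    have a2 : (m : ℤ) ≤ t * (j + 1) + 1 - 2 * t := by linarith
    have a3 : (lam : ℤ) * m ≤ lam * (t * (j + 1) + 1 - 2 * t) :=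
      mul_le_mul_of_nonneg_left a2 (by positivity)
    nlinarith
  have a4 : t * (j + 1) + t ≤ t * (lam * t) := by
    have : t * (j + 1 + 1) ≤ t * (lam * t) := Nat.mul_le_mul_left _ hkt
    nlinarith
  have a5 : lam * (t * (t + 1)) ≤ lam * (2 * lam) := Nat.mul_le_mul_left _ htl
  have a6 : lam * 2 ≤ lam * t := Nat.mul_le_mul_left _ ht
  nlinarith

section
variable {α : Type*} [Fintype α] [DecidableEq α] {Bl : Finset (Finset α)} {r k lam : ℕ}

theorem HD.final (h : HD Bl r k lam) (hb : Fintype.card α < Bl.card) (hlam : 6 ≤ lam) :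
    ((Fintype.card α = (lam - 1) ^ 3 ∧ k = (lam - 1) ^ 2 ∧
        r = (lam - 1) ^ 2 + (lam - 1) + 1 ∧
        Bl.card = (lam - 1) ^ 3 + (lam - 1) ^ 2 + (lam - 1)) ∨
      ((Fintype.card α - 1) ^ 2 ≤ (lam - 1) ^ 5 ∧
        ((∃ l, 2 ≤ l ∧ (lam = l ^ 2 + 1 ∨ lam = l ^ 3 + l + 1) ∧ k = 1 + lam * (l - 1) ∧
          r = 1 + lam * (lam - 1) ∧ Fintype.card α = 1 + (l - 1) * r ∧
          Bl.card * k = Fintype.card α * r) ∨
        (Fintype.card α - 1) ^ 4 ≤ 16 * lam ^ 9))) ∧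
    (Fintype.card α < 2 * lam * (lam - 1) ∨
      ∃ l K, 2 ≤ l ∧ l ≤ K ∧ K ≤ lam ∧ k = 1 + K * (l - 1) ∧
        Fintype.card α = 1 + (l - 1) * (1 + lam * (K - 1)) ∧
        r * K = lam * (1 + lam * (K - 1)) ∧ l ∣ K * (K - 1) ∧ K ∣ lam * (lam - 1) ∧
        ((l + 1 = lam ∧ K = lam) ∨ (l - 1) ^ 2 ≤ lam) ∧
        (K = lam → l + 1 = lam ∨ lam = l ^ 2 + 1 ∨ lam = l ^ 3 + l + 1) ∧
        (K + 1 = lam → l = 2)) := by
  have hlam3 : 3 ≤ lam := by omega
  obtain ⟨hk3, hkv, hrk, hne⟩ := h.basic hb hlam3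
  obtain ⟨x⟩ : Nonempty α := by rw [← Fintype.card_pos_iff]; omega
  have c2 := h.count2 x
  rcases h.params hb hlam3 with ⟨t, ht2, htl, hv⟩ | ⟨s, c, hpar, hineq, hdh⟩
  · have h1 := fewB hrk c2 hlam3 ht2 htl hv hk3 hkv
    generalize Fintype.card α = v at *
    obtain ⟨m, rfl⟩ : ∃ m, lam = m + 6 := ⟨lam - 6, by omega⟩
    have e : m + 6 - 1 = m + 5 := by omega
    rw [e]
    refine ⟨Or.inr ⟨?_, Or.inr ?_⟩, Or.inl ?_⟩
    · have h2 : v - 1 ≤ 2 * m ^ 2 + 22 * m + 55 := by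
        have : 2 * (m + 6) ^ 2 = 2 * m ^ 2 + 24 * m + 72 := by ring
        omega
      calc (v - 1) ^ 2 ≤ (2 * m ^ 2 + 22 * m + 55) ^ 2 := Nat.pow_le_pow_left h2 2
        _ ≤ (m + 5) ^ 5 := by
            ring_nf
            nlinarith [Nat.zero_le (m ^ 2), Nat.zero_le (m ^ 3), Nat.zero_le (m ^ 4),
              Nat.zero_le (m ^ 5)]
    · have h2 : v - 1 ≤ 2 * (m + 6) ^ 2 := by omega
      calc (v - 1) ^ 4 ≤ (2 * (m + 6) ^ 2) ^ 4 := Nat.pow_le_pow_left h2 4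
        _ = 16 * (m + 6) ^ 8 * 1 := by ring
        _ ≤ 16 * (m + 6) ^ 8 * (m + 6) := Nat.mul_le_mul_left _ (by omega)
        _ = 16 * (m + 6) ^ 9 := by ring
    · nlinarith
  · generalize Fintype.card α = v at *
    refine ⟨?_, Or.inr ⟨s + 1, c + 1, ?_⟩⟩
    · by_cases hq : c + 1 = lam ∧ s + 1 = c
      · exact Or.inl (hpar.eqcase hq.1 hq.2)
      · right
        exact ⟨(hpar.five hb hineq hdh hlam hq).1, hpar.nine hb hineq hdh hlam hq⟩
    · have hp := hpar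
      obtain ⟨h1, h2, h3, hk, hv, hr, hd, hbk⟩ := hpar
      have e1 : s + 1 - 1 = s := by omega
      have e2 : c + 1 - 1 = c := by omega
      rw [e1, e2]
      refine ⟨by omega, by omega, h3, hk, hv, hr, hd, ?_, ?_, ?_, ?_⟩
      · have d1 : c + 1 ∣ lam * (1 + lam * c) := ⟨r, by rw [← hr]; ring⟩
        obtain ⟨m, rfl⟩ : ∃ m, lam = m + 1 := ⟨lam - 1, by omega⟩
        have e3 : m + 1 - 1 = m := by omega
        rw [e3]
        have e4 : (m + 1) * (1 + (m + 1) * c) + (m + 1) * m = (c + 1) * ((m + 1) * (m + 1)) := by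
          ring
        exact (Nat.dvd_add_right d1).1 (e4 ▸ Dvd.intro _ rfl)
      · by_cases hq : c + 1 = lam ∧ s + 1 = c
        · left
          omega
        · exact Or.inr (hp.five hb hineq hdh hlam hq).2
      · intro hcl
        by_cases hsc : s + 1 = c
        · left; omega
        · right
          exact hp.dhexact hb (hdh hcl) hcl hsc
      · intro hcl
        have := hp.one (by omega)
        omega

end

end Pool.Agent.H27M
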