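import Pool.Agent.H27M.Arith

/-! Arithmetic: the bound `(v - 1) ^ 2 ≤ (lam - 1) ^ 5`. -/

namespace Pool.Agent.H27M

theorem Par.zero_dvd {b v r k lam s c t : ℕ} (h : Par b v r k lam s c) (hi : lam = c + 1)
    (ht : lam = s + 1 + t) : (k : ℤ) ∣ (t : ℤ) * (t - 1) := by
  obtain ⟨h1, h2, h3, hk, hv, hr, _, hbk⟩ := h
  have hr' : r = 1 + lam * c := by
    have : lam * r = lam * (1 + lam * c) := by
      calc lam * r = r * (c + 1) := by rw [← hi]; ring
        _ = _ := hr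
    exact Nat.eq_of_mul_eq_mul_left (by omega) this
  have hc : c = s + t := by omega
  subst hc
  subst ht
  have hbk' : (b : ℤ) * k = v * r := by exact_mod_cast hbk
  have hkz : (k : ℤ) = s ^ 2 + s + 1 + t * s := by rw [hk]; push_cast; ring
  have hrz : (r : ℤ) = 1 + (s + 1 + t) * (s + t) := by exact_mod_cast hr'
  have hvz : (v : ℤ) = 1 + s * (1 + (s + 1 + t) * (s + t)) := by exact_mod_cast hv
  refine ⟨(s + 1 + t) ^ 2 * s ^ 3 * b -
      (s + 1 + t) ^ 2 * (k * (k - 1 - s) ^ 2 - (k - 1 - s) * (2 * t - 1) * s) -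
      t * (t - 1) * (k - 2), ?_⟩
  rw [hvz, hrz] at hbk'
  have e : (k : ℤ) * ((s + 1 + t) ^ 2 * s ^ 3 * b -
      (s + 1 + t) ^ 2 * (k * (k - 1 - s) ^ 2 - (k - 1 - s) * (2 * t - 1) * s) -
      t * (t - 1) * (k - 2)) = (s + 1 + t) ^ 2 * s ^ 3 * (b * k) - k * (
      (s + 1 + t) ^ 2 * (k * (k - 1 - s) ^ 2 - (k - 1 - s) * (2 * t - 1) * s) +
      t * (t - 1) * (k - 2)) := by ring
  rw [e, hbk', hkz]
  ring

/-- The case in which there are `lam` lines through a point in a block. -/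
theorem Par.dhcase {b v r k lam s c : ℕ} (h : Par b v r k lam s c) (hb : v < b)
    (hdh : (s + 1) ∣ k ∨ (s + 1) * r ≤ k * lam + (s + 1)) (hc : c + 1 = lam)
    (hne : s + 1 ≠ c) : (s + 1) ^ 2 ≤ c := by
  have hsc := h.not_sym hb hc
  have hzd := fun t ht => h.zero_dvd (t := t) hc.symm ht
  obtain ⟨h1, h2, h3, hk, hv, hr, _, hbk⟩ := h
  subst hc
  have hr' : r = 1 + (c + 1) * c := by
    have : (c + 1) * r = (c + 1) * (1 + (c + 1) * c) := by
      rw [← hr]; ring
    exact Nat.eq_of_mul_eq_mul_left (by omega) this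
  rcases hdh with hd | hd
  · -- `s + 1` divides `c`
    have hdc : s + 1 ∣ c := by
      have e : k + c = (s + 1) * (c + 1) := by rw [hk]; ring
      exact (Nat.dvd_add_right hd).1 (e ▸ Dvd.intro _ rfl)
    obtain ⟨m, hm⟩ := hdc
    have hm1 : m ≠ 1 := fun e => hne (by rw [hm, e, mul_one])
    have hm0 : m ≠ 0 := fun e => by rw [hm, e] at hsc; omega
    rcases Nat.lt_or_ge m (s + 1) with hms | hms
    · exfalso
      have ht : c + 1 = s + 1 + (c - s) := by omega
      have hz := hzd (c - s) ht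
      have htz : ((c - s : ℕ) : ℤ) = m * (s + 1) - s := by
        have : s ≤ c := h2
        push_cast [Nat.cast_sub this]
        rw [hm]; push_cast; ring
      have hkz : (k : ℤ) = (s + 1) * (1 + m * s) := by
        rw [hk, hm]; push_cast; ring
      rw [htz, hkz] at hz
      have e1 : ((m : ℤ) * (s + 1) - s) * (m * (s + 1) - s - 1) =
          (s + 1) * ((m * (s + 1) - s) * (m - 1)) := by ring
      rw [e1] at hz
      have hs0 : ((s : ℤ) + 1) ≠ 0 := by positivity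
      have hz2 := (mul_dvd_mul_iff_left hs0).1 hz
      have hz3 : (1 + (m : ℤ) * s) ∣ (m - 1) * (s + 1 - m) := by
        have e2 : ((m : ℤ) - 1) * (s + 1 - m) = (1 + m * s) * (m - 1) -
          (m * (s + 1) - s) * (m - 1) := by ring
        rw [e2]
        exact dvd_sub (Dvd.intro _ rfl) hz2
      have hmz : (2 : ℤ) ≤ m := by
        have : 2 ≤ m := by omega
        exact_mod_cast this
      have hms' : (m : ℤ) ≤ s := by
        have : m ≤ s := by omega
        exact_mod_cast this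
      have hle := Int.le_of_dvd (by nlinarith) hz3
      nlinarith
    · rw [hm, pow_two]
      exact Nat.mul_le_mul_left _ hms
  · exfalso
    rw [hr', hk] at hd
    have h5 : (c + 1) * ((s + 1) * c) ≤ (c + 1) * (1 + (c + 1) * s) := by nlinarith
    have h6 := Nat.le_of_mul_le_mul_left h5 (by omega)
    apply hne
    nlinarith

/-- The case in which there are fewer lines through a point in a block. -/
theorem Par.small {b v r k lam s c : ℕ} (h : Par b v r k lam s c)
    (hineq : (s + 1) * (k * lam) + k ≤ (s + 1) * r + k * k) (hc : c + 1 < lam) :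
    (c + 1) * s ≤ lam - 1 + (c + 1) ∨ s ^ 2 ≤ c + 1 := by
  obtain ⟨h1, h2, h3, hk, hv, hr, _, hbk⟩ := h
  obtain ⟨i, rfl⟩ : ∃ i, lam = c + 1 + i := ⟨lam - (c + 1), by omega⟩
  have hi : 1 ≤ i := by omega
  by_contra hcon
  push Not at hcon
  obtain ⟨g1, g2⟩ := hcon
  have e : c + 1 + i - 1 = c + i := by omega
  rw [e] at g1
  zify at *
  -- `K = c + 1`, `l = s + 1`
  have hK : ((s : ℤ) + 1) * (k * (c + 1 + i)) * (c + 1) + k * (c + 1) ≤
      (s + 1) * ((c + 1 + i) * (1 + (c + 1 + i) * c)) + k * k * (c + 1) := by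
    have := mul_le_mul_of_nonneg_right hineq (show (0 : ℤ) ≤ c + 1 by positivity)
    rw [← hr]
    nlinarith
  have key : (i : ℤ) * (c + 1) * (s + 1) * ((c + 1) * (s - 2) - (i - 1)) ≤
      (c + 1) ^ 2 * c - (s + 1) * ((c + 1 + i) * (c + i)) := by
    rw [hk] at hK
    nlinarith
  have hY : (1 : ℤ) ≤ (c + 1) * (s - 2) - (i - 1) := by nlinarith
  have hiY : ((c : ℤ) + 1) * (s - 2) ≤ i * ((c + 1) * (s - 2) - (i - 1)) := by
    nlinarith [mul_nonneg (show (0 : ℤ) ≤ i - 1 by linarith)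
      (show (0 : ℤ) ≤ (c + 1) * (s - 2) - (i - 1) - 1 by linarith)]
  have hpos : (0 : ℤ) ≤ (c + 1) * (s + 1) := by positivity
  have h7 := mul_le_mul_of_nonneg_left hiY hpos
  have h8 : ((c : ℤ) + 1) * (c + 1) ≤ (c + 1 + i) * (c + i) := by nlinarith
  have h9 : ((s : ℤ) + 1) * ((c + 1) * (c + 1)) ≤ (s + 1) * ((c + 1 + i) * (c + i)) :=
    mul_le_mul_of_nonneg_left h8 (by positivity)
  have h10 : ((c : ℤ) + 1) ^ 2 * ((s + 1) * (s - 2)) ≤ (c + 1) ^ 2 * (c - (s + 1)) := by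
    nlinarith
  have h11 := le_of_mul_le_mul_left h10 (by positivity)
  nlinarith

theorem Par.five {b v r k lam s c : ℕ} (h : Par b v r k lam s c) (hb : v < b)
    (hineq : (s + 1) * (k * lam) + k ≤ (s + 1) * r + k * k)
    (hdh : c + 1 = lam → (s + 1) ∣ k ∨ (s + 1) * r ≤ k * lam + (s + 1))
    (hlam : 6 ≤ lam) (hne : ¬ (c + 1 = lam ∧ s + 1 = c)) :
    (v - 1) ^ 2 ≤ (lam - 1) ^ 5 ∧ s ^ 2 ≤ lam := by
  have hp := h
  obtain ⟨h1, h2, h3, hk, hv, hr, _, hbk⟩ := h
  obtain ⟨q, rfl⟩ : ∃ q, lam = q + 1 := ⟨lam - 1, by omega⟩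
  have e1 : q + 1 - 1 = q := by omega
  have e2 : v - 1 = s * (1 + (q + 1) * c) := by omega
  rw [e1, e2]
  rcases h3.lt_or_eq with hc | hc
  · have hcq : c + 1 ≤ q := by omega
    have hA : 1 + (q + 1) * c ≤ q ^ 2 := by
      obtain ⟨m, rfl⟩ : ∃ m, q = c + 1 + m := ⟨q - (c + 1), by omega⟩
      nlinarith
    rcases hp.small hineq hc with h4 | h4
    · rw [e1] at h4
      constructor
      · have hB : s * (1 + (q + 1) * c) ≤ 2 * q ^ 2 + q := by
          have a1 : (q + 1) * ((c + 1) * s) ≤ (q + 1) * (q + (c + 1)) :=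
            Nat.mul_le_mul_left _ h4
          have a2 : s * (1 + (q + 1) * c) + q * s = (q + 1) * ((c + 1) * s) := by ring
          have a3 : (q + 1) * (q + (c + 1)) ≤ (q + 1) * (2 * q) :=
            Nat.mul_le_mul_left _ (by omega)
          have a4 : q * 1 ≤ q * s := Nat.mul_le_mul_left _ h1
          nlinarith
        have hC : (2 * q ^ 2 + q) ^ 2 ≤ q ^ 5 := by
          have hq5 : 5 ≤ q := by omega
          have : (2 * q + 1) ^ 2 ≤ q ^ 3 := by
            obtain ⟨m, rfl⟩ : ∃ m, q = m + 5 := ⟨q - 5, by omega⟩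
            nlinarith [Nat.zero_le (m ^ 2), Nat.zero_le (m ^ 3)]
          calc (2 * q ^ 2 + q) ^ 2 = q ^ 2 * (2 * q + 1) ^ 2 := by ring
            _ ≤ q ^ 2 * q ^ 3 := Nat.mul_le_mul_left _ this
            _ = q ^ 5 := by ring
        exact (Nat.pow_le_pow_left hB 2).trans hC
      · nlinarith
    · constructor
      · calc (s * (1 + (q + 1) * c)) ^ 2 = s ^ 2 * (1 + (q + 1) * c) ^ 2 := by ring
          _ ≤ q * (q ^ 2) ^ 2 := Nat.mul_le_mul (h4.trans hcq) (Nat.pow_le_pow_left hA 2)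
          _ = q ^ 5 := by ring
      · omega
  · have hcq : c = q := by omega
    have h5 := hp.dhcase hb (hdh hc) hc (fun e => hne ⟨hc, e⟩)
    subst hcq
    constructor
    · have h6 : s ^ 2 + 3 ≤ c := by nlinarith
      obtain ⟨m, rfl⟩ : ∃ m, c = m + 3 := ⟨c - 3, by omega⟩
      have h7 : s ^ 2 ≤ m := by omega
      calc (s * (1 + (m + 3 + 1) * (m + 3))) ^ 2 = s ^ 2 * (1 + (m + 3 + 1) * (m + 3)) ^ 2 := by
            ring
        _ ≤ m * (1 + (m + 3 + 1) * (m + 3)) ^ 2 := Nat.mul_le_mul_right _ h7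
        _ ≤ (m + 3) ^ 5 := by
            ring_nf
            nlinarith [Nat.zero_le (m ^ 2), Nat.zero_le (m ^ 3), Nat.zero_le (m ^ 4)]
    · nlinarith

end Pool.Agent.H27M
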