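import Pool.Agent.H27M.Split

/-! The linear space structure inside a block when all pencils are sunflowers. -/

open Finset

namespace Pool.Agent.H27M

section
variable {α : Type*} [Fintype α] [DecidableEq α] {Bl : Finset (Finset α)} {r k lam : ℕ}

/-- All pencils of lines are sunflowers. -/
def AllSun (Bl : Finset (Finset α)) (k : ℕ) : Prop :=
  ∀ x y : α, x ≠ y → ∃ F : Finset α,
      (∀ B ∈ Bl.filter (fun B => x ∈ B ∧ y ∈ B), F ⊆ B) ∧
      (∀ B ∈ Bl.filter (fun B => x ∈ B ∧ y ∈ B), ∀ B' ∈ Bl.filter (fun B => x ∈ B ∧ y ∈ B),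
        B ≠ B' → B ∩ B' = F) ∧
      (∀ z, ∃ B ∈ Bl.filter (fun B => x ∈ B ∧ y ∈ B), z ∈ B) ∧ F.card < k

theorem HD.sunB (h : HD Bl r k lam) (hlam : 2 ≤ lam) (hS : AllSun Bl k)
    {x y : α} (hxy : x ≠ y) :
    (∀ B ∈ Bl, ∀ B' ∈ Bl, x ∈ B → y ∈ B → x ∈ B' → y ∈ B' → B ≠ B' → B ∩ B' = ln Bl x y) ∧
    (∀ z, ∃ B ∈ Bl, x ∈ B ∧ y ∈ B ∧ z ∈ B) ∧ (ln Bl x y).card < k ∧
    Fintype.card α = (ln Bl x y).card + lam * (k - (ln Bl x y).card) := by
  obtain ⟨F, hFB, hint, hcov, hFk⟩ := hS x y hxy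
  have hmT : ∀ B, B ∈ Bl.filter (fun B => x ∈ B ∧ y ∈ B) ↔ B ∈ Bl ∧ x ∈ B ∧ y ∈ B :=
    fun B => by rw [Finset.mem_filter]
  have hcard := sun_card hFB (fun B hB => h.hk B ((hmT B).1 hB).1) hint hcov
  rw [h.hl x y hxy] at hcard
  have hF : F = ln Bl x y := by
    apply Finset.Subset.antisymm
    · intro z hz
      rw [mem_ln]
      intro B hB hxB hyB
      exact hFB B ((hmT B).2 ⟨hB, hxB, hyB⟩) hz
    · obtain ⟨B, hB, B', hB', hne⟩ := Finset.one_lt_card.1
        (show 1 < (Bl.filter (fun B => x ∈ B ∧ y ∈ B)).card by rw [h.hl x y hxy]; omega)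
      rw [← hint B hB B' hB' hne]
      rw [hmT] at hB hB'
      exact Finset.subset_inter (ln_sub hB.1 hB.2.1 hB.2.2) (ln_sub hB'.1 hB'.2.1 hB'.2.2)
  refine ⟨?_, ?_, ?_, ?_⟩
  · intro B hB B' hB' h1 h2 h3 h4 hne
    rw [← hF]
    exact hint B ((hmT B).2 ⟨hB, h1, h2⟩) B' ((hmT B').2 ⟨hB', h3, h4⟩) hne
  · intro z
    obtain ⟨B, hB, hz⟩ := hcov z
    rw [hmT] at hB
    exact ⟨B, hB.1, hB.2.1, hB.2.2, hz⟩
  · rw [← hF]; exact hFk
  · rw [← hF]; exact hcard

/-- The linear space structure inside a block. -/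
theorem HD.linesB (h : HD Bl r k lam) (hlam : 2 ≤ lam) (hS : AllSun Bl k)
    (hk : 2 ≤ k) (hne : Bl.Nonempty) :
    ∃ l K : ℕ, 2 ≤ l ∧ l ≤ K ∧ K ≤ lam ∧ k - 1 = K * (l - 1) ∧ l < k ∧
      Fintype.card α = l + lam * (k - l) ∧ l ∣ k * K ∧
      (∀ a b : α, a ≠ b → (ln Bl a b).card = l) := by
  obtain ⟨B, hB⟩ := hne
  have hBk := h.hk B hB
  obtain ⟨x, hx, y, hy, hxy⟩ := Finset.one_lt_card.1 (show 1 < B.card by omega)
  set l := (ln Bl x y).card with hl
  obtain ⟨_, _, hlk, hvl⟩ := h.sunB hlam hS hxy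
  rw [← hl] at hlk hvl
  -- all lines have the same size
  have hall : ∀ a b : α, a ≠ b → (ln Bl a b).card = l := by
    intro a b hab
    obtain ⟨_, _, h1, h2⟩ := h.sunB hlam hS hab
    set m := (ln Bl a b).card with hm
    rw [hvl] at h2
    obtain ⟨p, hp⟩ : ∃ p, k = l + p := ⟨k - l, by omega⟩
    obtain ⟨q, hq⟩ : ∃ q, k = m + q := ⟨k - m, by omega⟩
    have e1 : k - l = p := by omega
    have e2 : k - m = q := by omega
    rw [e1, e2] at h2
    obtain ⟨s, rfl⟩ : ∃ s, lam = s + 2 := ⟨lam - 2, by omega⟩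
    have h3 : (s + 1) * p = (s + 1) * q := by
      have a1 : (s + 2) * p = (s + 1) * p + p := by ring
      have a2 : (s + 2) * q = (s + 1) * q + q := by ring
      rw [a1, a2] at h2
      omega
    have h4 : p = q := Nat.eq_of_mul_eq_mul_left (by omega) h3
    omega
  have hl2 : 2 ≤ l := two_le_card_of_mem hxy (left_mem _ _) (right_mem _ _)
  -- counting around a point
  have hcount : ∀ a ∈ B, k - 1 = ((B.erase a).image (ln Bl a)).card * (l - 1) := by
    intro x hx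
    have h1 := Finset.card_eq_sum_card_image (ln Bl x) (B.erase x)
    rw [Finset.card_erase_of_mem hx, hBk] at h1
    rw [h1]
    have hc : ∀ Λ ∈ (B.erase x).image (ln Bl x),
        ((B.erase x).filter (fun a => ln Bl x a = Λ)).card = l - 1 := by
      intro Λ hΛ
      rw [Finset.mem_image] at hΛ
      obtain ⟨p, hp, rfl⟩ := hΛ
      rw [Finset.mem_erase] at hp
      have : (B.erase x).filter (fun a => ln Bl x a = ln Bl x p) = (ln Bl x p).erase x := by
        ext a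
        rw [Finset.mem_filter, Finset.mem_erase, Finset.mem_erase]
        constructor
        · rintro ⟨⟨h1, _⟩, h3⟩
          exact ⟨h1, h3 ▸ right_mem _ _⟩
        · rintro ⟨h1, h2⟩
          exact ⟨⟨h1, ln_sub hB hx hp.2 h2⟩,
            h.ln_eq (Ne.symm hp.1) (Ne.symm h1) (left_mem _ _) h2⟩
      rw [this, Finset.card_erase_of_mem (left_mem _ _), hall x p (Ne.symm hp.1)]
    rw [Finset.sum_congr rfl hc, Finset.sum_const, smul_eq_mul]
  set Im := (B.erase x).image (ln Bl x) with hIm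
  refine ⟨l, Im.card, hl2, ?_, ?_, hcount x hx, hlk, hvl, ?_, hall⟩
  · -- `l ≤ K`
    obtain ⟨w, hwB, hw⟩ : ∃ w ∈ B, w ∉ ln Bl x y := by
      by_contra hcon
      push Not at hcon
      have := Finset.card_le_card (show B ⊆ ln Bl x y from hcon)
      omega
    have hwy : w ≠ y := fun e => hw (e ▸ right_mem _ _)
    have hxn : x ∉ ln Bl w y := by
      intro hxm
      apply hw
      rw [h.ln_eq hwy hxy hxm (right_mem _ _)]
      exact left_mem _ _
    rw [← hall w y hwy]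
    apply Finset.card_le_card_of_injOn (fun p => ln Bl x p)
    · intro p hp
      have hp' : p ∈ ln Bl w y := hp
      show ln Bl x p ∈ (Im : Set (Finset α))
      rw [Finset.mem_coe, hIm, Finset.mem_image]
      refine ⟨p, Finset.mem_erase.2 ⟨fun e => hxn (e ▸ hp'), ln_sub hB hwB hy hp'⟩, rfl⟩
    · intro p hp q hq hpq
      have hp' : p ∈ ln Bl w y := hp
      have hq' : q ∈ ln Bl w y := hq
      simp only at hpq
      by_contra hne
      have hxp : x ≠ p := fun e => hxn (e ▸ hp')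
      have e1 : ln Bl p q = ln Bl x p :=
        h.ln_eq hxp hne (right_mem _ _) (hpq ▸ right_mem _ _)
      have e2 : ln Bl p q = ln Bl w y := h.ln_eq hwy hne hp' hq'
      apply hxn
      rw [← e2, e1]
      exact left_mem _ _
  · -- `K ≤ lam`
    obtain ⟨z, hz⟩ : ∃ z, z ∉ B := by
      by_contra hcon
      push Not at hcon
      exact h.pr B hB (Finset.eq_univ_iff_forall.2 hcon)
    have hxz : x ≠ z := fun e => hz (e ▸ hx)
    have hex : ∀ Λ : Finset α, ∃ C : Finset α, Λ ∈ Im → C ∈ Bl ∧ x ∈ C ∧ z ∈ C ∧ Λ ⊆ C := by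
      intro Λ
      by_cases hΛ : Λ ∈ Im
      · have hΛ' := hΛ
        rw [hIm, Finset.mem_image] at hΛ
        obtain ⟨p, hp, rfl⟩ := hΛ
        rw [Finset.mem_erase] at hp
        obtain ⟨C, hC, h1, h2, h3⟩ := (h.sunB hlam hS (Ne.symm hp.1)).2.1 z
        exact ⟨C, fun _ => ⟨hC, h1, h3, ln_sub hC h1 h2⟩⟩
      · exact ⟨∅, fun h => absurd h hΛ⟩
    choose f hf using hex
    rw [← h.hl x z hxz]
    apply Finset.card_le_card_of_injOn f
    · intro Λ hΛ
      obtain ⟨h1, h2, h3, _⟩ := hf Λ hΛ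
      show f Λ ∈ (↑(Bl.filter (fun B => x ∈ B ∧ z ∈ B)) : Set (Finset α))
      rw [Finset.mem_coe, Finset.mem_filter]
      exact ⟨h1, h2, h3⟩
    · intro Λ hΛ Λ' hΛ' hff
      obtain ⟨h1, h2, h3, h4⟩ := hf Λ hΛ
      obtain ⟨h1', h2', h3', h4'⟩ := hf Λ' hΛ'
      rw [Finset.mem_coe, hIm, Finset.mem_image] at hΛ hΛ'
      obtain ⟨p, hp, rfl⟩ := hΛ
      obtain ⟨q, hq, rfl⟩ := hΛ'
      rw [Finset.mem_erase] at hp hq
      have hBC : B ≠ f (ln Bl x p) := fun e => hz (e ▸ h3)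
      have hpC : p ∈ f (ln Bl x p) := h4 (right_mem _ _)
      have hqC : q ∈ f (ln Bl x p) := by rw [hff]; exact h4' (right_mem _ _)
      have hI := (h.sunB hlam hS (Ne.symm hp.1)).1 B hB _ h1 hx hp.2 h2 hpC hBC
      have hq' : q ∈ ln Bl x p := by
        rw [← hI]; exact Finset.mem_inter.2 ⟨hq.2, hqC⟩
      exact (h.ln_eq (Ne.symm hp.1) (Ne.symm hq.1) (left_mem _ _) hq').symm
  · -- flags
    set Ls := B.offDiag.image (fun p => ln Bl p.1 p.2) with hLs
    have hK : ∀ a ∈ B, ((B.erase a).image (ln Bl a)).card = Im.card := by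
      intro a ha
      have e := (hcount a ha).symm.trans (hcount x hx)
      exact Nat.eq_of_mul_eq_mul_right (by omega) e
    have hflag : ∀ a ∈ B, (Ls.filter (fun Λ => a ∈ Λ)) = (B.erase a).image (ln Bl a) := by
      intro a ha
      ext Λ
      rw [Finset.mem_filter, hLs, Finset.mem_image, Finset.mem_image]
      constructor
      · rintro ⟨⟨⟨p, q⟩, hpq, rfl⟩, haΛ⟩
        rw [Finset.mem_offDiag] at hpq
        simp only at hpq haΛ ⊢
        by_cases hap : a = p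
        · subst hap
          exact ⟨q, Finset.mem_erase.2 ⟨Ne.symm hpq.2.2, hpq.2.1⟩, rfl⟩
        · exact ⟨p, Finset.mem_erase.2 ⟨Ne.symm hap, hpq.1⟩,
            h.ln_eq hpq.2.2 hap haΛ (left_mem _ _)⟩
      · rintro ⟨p, hp, rfl⟩
        rw [Finset.mem_erase] at hp
        exact ⟨⟨(a, p), Finset.mem_offDiag.2 ⟨ha, hp.2, Ne.symm hp.1⟩, rfl⟩, left_mem _ _⟩
    have e1 : ∑ a ∈ B, (Ls.filter (fun Λ => a ∈ Λ)).card = k * Im.card := by
      rw [Finset.sum_congr rfl (fun a ha => by rw [hflag a ha, hK a ha]), Finset.sum_const,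
        smul_eq_mul, hBk]
    have e2 : ∑ Λ ∈ Ls, (B.filter (fun a => a ∈ Λ)).card = Ls.card * l := by
      have hc : ∀ Λ ∈ Ls, (B.filter (fun a => a ∈ Λ)).card = l := by
        intro Λ hΛ
        rw [hLs, Finset.mem_image] at hΛ
        obtain ⟨⟨p, q⟩, hpq, rfl⟩ := hΛ
        rw [Finset.mem_offDiag] at hpq
        simp only at hpq ⊢
        have : B.filter (fun a => a ∈ ln Bl p q) = ln Bl p q := by
          ext a
          rw [Finset.mem_filter]
          exact ⟨fun ha => ha.2, fun ha => ⟨ln_sub hB hpq.1 hpq.2.1 ha, ha⟩⟩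
        rw [this, hall p q hpq.2.2]
      rw [Finset.sum_congr rfl hc, Finset.sum_const, smul_eq_mul]
    have e3 : ∑ a ∈ B, (Ls.filter (fun Λ => a ∈ Λ)).card =
        ∑ Λ ∈ Ls, (B.filter (fun a => a ∈ Λ)).card := by
      simp only [Finset.card_eq_sum_ones, Finset.sum_filter]
      exact Finset.sum_comm
    exact ⟨Ls.card, by rw [← e1, e3, e2, mul_comm]⟩

end

end Pool.Agent.H27M
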