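import Pool.Agent.H27M.Pen

/-! How the blocks through a point meet a block missing the point. -/

open Finset

namespace Pool.Agent.H27M

section
variable {α : Type*} [Fintype α] [DecidableEq α] {Bl : Finset (Finset α)} {r k lam l : ℕ}

theorem HD.meet1 (h : HD Bl r k lam) {B : Finset α} (hB : B ∈ Bl) {p : α} (hp : p ∉ B) :
    ∑ D ∈ Bl.filter (fun D => p ∈ D), (D ∩ B).card = k * lam := by
  have e1 : ∀ D ∈ Bl.filter (fun D => p ∈ D), (D ∩ B).card = ∑ q ∈ B, if q ∈ D then 1 else 0 := by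
    intro D _
    rw [← Finset.card_filter]
    congr 1
    ext q
    simp [and_comm]
  rw [Finset.sum_congr rfl e1, Finset.sum_comm]
  have e2 : ∀ q ∈ B, (∑ D ∈ Bl.filter (fun D => p ∈ D), if q ∈ D then 1 else 0) = lam := by
    intro q hq
    rw [← Finset.card_filter, Finset.filter_filter]
    exact h.hl p q (fun e => hp (e ▸ hq))
  rw [Finset.sum_congr rfl e2, Finset.sum_const, h.hk B hB, smul_eq_mul]

theorem HD.meet2 (h : HD Bl r k lam) (hlam : 2 ≤ lam) (hS : AllSun Bl k) {B : Finset α}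
    (hB : B ∈ Bl) {p : α} (hp : p ∉ B) :
    ∑ D ∈ Bl.filter (fun D => p ∈ D), (D ∩ B).offDiag.card = k * k - k := by
  have e1 : ∀ D ∈ Bl.filter (fun D => p ∈ D), (D ∩ B).offDiag.card =
      ∑ z ∈ B.offDiag, if z.1 ∈ D ∧ z.2 ∈ D then 1 else 0 := by
    intro D _
    rw [← Finset.card_filter]
    congr 1
    ext ⟨a, b⟩
    simp only [Finset.mem_offDiag, Finset.mem_inter, Finset.mem_filter]
    tauto
  rw [Finset.sum_congr rfl e1, Finset.sum_comm]
  have e2 : ∀ z ∈ B.offDiag,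
      (∑ D ∈ Bl.filter (fun D => p ∈ D), if z.1 ∈ D ∧ z.2 ∈ D then 1 else 0) = 1 := by
    rintro ⟨a, b⟩ hab
    rw [Finset.mem_offDiag] at hab
    obtain ⟨ha, hb, hne⟩ := hab
    simp only at ha hb hne ⊢
    rw [← Finset.card_filter, Finset.card_eq_one]
    obtain ⟨hint, hcov, _, _⟩ := h.sunB hlam hS hne
    obtain ⟨D, hD, haD, hbD, hpD⟩ := hcov p
    refine ⟨D, ?_⟩
    ext E
    rw [Finset.mem_filter, Finset.mem_filter, Finset.mem_singleton]
    constructor
    · rintro ⟨⟨hE, hpE⟩, haE, hbE⟩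
      by_contra hED
      have hI := hint E hE D hD haE hbE haD hbD hED
      apply hp
      have : p ∈ ln Bl a b := by rw [← hI]; exact Finset.mem_inter.2 ⟨hpE, hpD⟩
      exact ln_sub hB ha hb this
    · rintro rfl
      exact ⟨⟨hD, hpD⟩, haD, hbD⟩
  rw [Finset.sum_congr rfl e2, Finset.sum_const, smul_eq_mul, mul_one, Finset.offDiag_card,
    h.hk B hB]

theorem HD.meet_card (h : HD Bl r k lam) (hlam : 2 ≤ lam) (hS : AllSun Bl k)
    (hall : ∀ a b : α, a ≠ b → (ln Bl a b).card = l) {B D : Finset α}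
    (hB : B ∈ Bl) (hD : D ∈ Bl) (hne : D ≠ B) :
    (D ∩ B).card = 0 ∨ (D ∩ B).card = 1 ∨ (D ∩ B).card = l := by
  rcases Nat.lt_or_ge (D ∩ B).card 2 with h2 | h2
  · omega
  · right; right
    obtain ⟨a, ha, b, hb, hab⟩ := Finset.one_lt_card.1 (show 1 < (D ∩ B).card by omega)
    rw [Finset.mem_inter] at ha hb
    rw [(h.sunB hlam hS hab).1 D hD B hB ha.1 hb.1 ha.2 hb.2 hne]
    exact hall a b hab

theorem HD.meet_ineq (h : HD Bl r k lam) (hlam : 2 ≤ lam) (hS : AllSun Bl k)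
    (hall : ∀ a b : α, a ≠ b → (ln Bl a b).card = l) (hne : Bl.Nonempty) :
    l * (k * lam) ≤ l * r + (k * k - k) := by
  obtain ⟨B, hB⟩ := hne
  obtain ⟨p, hp⟩ : ∃ p, p ∉ B := by
    by_contra hcon
    push Not at hcon
    exact h.pr B hB (Finset.eq_univ_iff_forall.2 hcon)
  rw [← h.meet1 hB hp, ← h.meet2 hlam hS hB hp, ← h.hr p, Finset.mul_sum]
  have e : l * (Bl.filter (fun D => p ∈ D)).card = ∑ _D ∈ Bl.filter (fun D => p ∈ D), l := by
    rw [Finset.sum_const, smul_eq_mul, mul_comm]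
  rw [e, ← Finset.sum_add_distrib]
  apply Finset.sum_le_sum
  intro D hD
  rw [Finset.mem_filter] at hD
  have hDB : D ≠ B := fun e => hp (e ▸ hD.2)
  rw [Finset.offDiag_card]
  rcases h.meet_card hlam hS hall hB hD.1 hDB with h0 | h0 | h0
  · rw [h0]; simp
  · rw [h0]; simp
  · rw [h0]
    rcases Nat.eq_zero_or_pos l with hl | hl
    · subst hl; simp
    · have : l ≤ l * l := Nat.le_mul_self l
      omega

/-- The argument of Doyen and Hubaut. -/
theorem HD.dh (h : HD Bl r k lam) (hlam : 2 ≤ lam) (hS : AllSun Bl k) (hl2 : 2 ≤ l)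
    (hall : ∀ a b : α, a ≠ b → (ln Bl a b).card = l) (hne : Bl.Nonempty)
    (hk : k = 1 + lam * (l - 1)) : l ∣ k ∨ l * r ≤ k * lam + l := by
  -- two blocks with a common point have `l` common points
  have hX : ∀ B ∈ Bl, ∀ D ∈ Bl, D ≠ B → (D ∩ B).card = 0 ∨ (D ∩ B).card = l := by
    intro B hB D hD hDB
    obtain ⟨p, hpD, hpB⟩ : ∃ p ∈ D, p ∉ B := by
      by_contra hcon
      push Not at hcon
      exact hDB (Finset.eq_of_subset_of_card_le hcon (by rw [h.hk _ hB, h.hk _ hD]))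
    have hle : ∀ E ∈ Bl.filter (fun D => p ∈ D),
        (E ∩ B).offDiag.card ≤ (l - 1) * (E ∩ B).card := by
      intro E hE
      rw [Finset.mem_filter] at hE
      have hEB : E ≠ B := fun e => hpB (e ▸ hE.2)
      rw [Finset.offDiag_card]
      rcases h.meet_card hlam hS hall hB hE.1 hEB with h0 | h0 | h0
      · rw [h0]; simp
      · rw [h0]; simp
      · rw [h0]
        obtain ⟨m, rfl⟩ : ∃ m, l = m + 1 := ⟨l - 1, by omega⟩
        have e1 : m + 1 - 1 = m := by omega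
        have e2 : (m + 1) * (m + 1) = m * (m + 1) + (m + 1) := by ring
        rw [e1, e2]
        omega
    have hsum : ∑ E ∈ Bl.filter (fun D => p ∈ D), (E ∩ B).offDiag.card =
        ∑ E ∈ Bl.filter (fun D => p ∈ D), (l - 1) * (E ∩ B).card := by
      rw [← Finset.mul_sum, h.meet1 hB hpB, h.meet2 hlam hS hB hpB]
      have e2 : k * k = (l - 1) * (k * lam) + k := by
        nth_rewrite 1 [hk]
        ring
      rw [e2]
      omega
    have heq := (Finset.sum_eq_sum_iff_of_le hle).1 hsum D (Finset.mem_filter.2 ⟨hD, hpD⟩)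
    rcases h.meet_card hlam hS hall hB hD hDB with h0 | h0 | h0
    · exact Or.inl h0
    · rw [Finset.offDiag_card, h0] at heq
      simp at heq
      omega
    · exact Or.inr h0
  obtain ⟨B, hB⟩ := hne
  obtain ⟨p, hp⟩ : ∃ p, p ∉ B := by
    by_contra hcon
    push Not at hcon
    exact h.pr B hB (Finset.eq_univ_iff_forall.2 hcon)
  set Bp := Bl.filter (fun D => p ∈ D) with hBp
  have hmp : ∀ D ∈ Bp, D ∈ Bl ∧ p ∈ D := fun D hD => Finset.mem_filter.1 hD
  set N := Bp.filter (fun D => (D ∩ B).card = 0) with hN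
  have hM : ∑ D ∈ Bp, (D ∩ B).card = l * (Bp.filter (fun D => ¬ (D ∩ B).card = 0)).card := by
    rw [← Finset.sum_filter_add_sum_filter_not Bp (fun D => (D ∩ B).card = 0)]
    have z1 : ∑ D ∈ Bp.filter (fun D => (D ∩ B).card = 0), (D ∩ B).card = 0 := by
      apply Finset.sum_eq_zero
      intro D hD
      exact (Finset.mem_filter.1 hD).2
    have z2 : ∀ D ∈ Bp.filter (fun D => ¬ (D ∩ B).card = 0), (D ∩ B).card = l := by
      intro D hD
      rw [Finset.mem_filter] at hD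
      exact (hX B hB D (hmp D hD.1).1 (fun e => hp (e ▸ (hmp D hD.1).2))).resolve_left hD.2
    rw [z1, Finset.sum_congr rfl z2, Finset.sum_const, smul_eq_mul, zero_add, mul_comm]
  rw [h.meet1 hB hp] at hM
  have hr : N.card + (Bp.filter (fun D => ¬ (D ∩ B).card = 0)).card = r := by
    rw [← h.hr p, hN, Finset.card_filter_add_card_filter_not]
  rcases Nat.lt_or_ge N.card 2 with hN2 | hN2
  · right
    rw [hM, ← hr, mul_add]
    have : l * N.card ≤ l * 1 := Nat.mul_le_mul_left _ (by omega)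
    omega
  left
  obtain ⟨D, hD, D', hD', hDD'⟩ := Finset.one_lt_card.1 (show 1 < N.card by omega)
  rw [hN, Finset.mem_filter] at hD hD'
  have hpI : p ∈ D ∩ D' := Finset.mem_inter.2 ⟨(hmp D hD.1).2, (hmp D' hD'.1).2⟩
  have hI : (D ∩ D').card = l := by
    refine (hX D' (hmp D' hD'.1).1 D (hmp D hD.1).1 hDD').resolve_left ?_
    intro h0
    rw [Finset.card_eq_zero] at h0
    rw [h0] at hpI
    simp at hpI
  obtain ⟨q, hq, hqp⟩ := Finset.exists_mem_ne (show 1 < (D ∩ D').card by omega) p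
  have hpq : p ≠ q := Ne.symm hqp
  obtain ⟨hint, hcov, _, _⟩ := h.sunB hlam hS hpq
  have hBU : B = (Bl.filter (fun E => p ∈ E ∧ q ∈ E)).biUnion (fun E => E ∩ B) := by
    ext z
    rw [Finset.mem_biUnion]
    constructor
    · intro hz
      obtain ⟨E, hE, h1, h2, h3⟩ := hcov z
      exact ⟨E, Finset.mem_filter.2 ⟨hE, h1, h2⟩, Finset.mem_inter.2 ⟨h3, hz⟩⟩
    · rintro ⟨E, _, hz⟩
      exact (Finset.mem_inter.1 hz).2
  have hcard : B.card = ∑ E ∈ Bl.filter (fun E => p ∈ E ∧ q ∈ E), (E ∩ B).card := by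
    conv_lhs => rw [hBU]
    apply Finset.card_biUnion
    intro E hE E' hE' hEE'
    rw [Finset.mem_coe, Finset.mem_filter] at hE hE'
    show Disjoint (E ∩ B) (E' ∩ B)
    rw [Finset.disjoint_left]
    intro z hz hz'
    rw [Finset.mem_inter] at hz hz'
    have hzl : z ∈ ln Bl p q := by
      rw [← hint E hE.1 E' hE'.1 hE.2.1 hE.2.2 hE'.2.1 hE'.2.2 hEE']
      exact Finset.mem_inter.2 ⟨hz.1, hz'.1⟩
    have hzD : z ∈ D := ln_sub (hmp D hD.1).1 (hmp D hD.1).2 (Finset.mem_inter.1 hq).1 hzl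
    have h0 := hD.2
    rw [Finset.card_eq_zero] at h0
    have : z ∈ D ∩ B := Finset.mem_inter.2 ⟨hzD, hz.2⟩
    rw [h0] at this
    simp at this
  rw [← h.hk B hB, hcard]
  apply Finset.dvd_sum
  intro E hE
  rw [Finset.mem_filter] at hE
  rcases hX B hB E hE.1 (fun e => hp (e ▸ hE.2.1)) with h0 | h0
  · rw [h0]; exact dvd_zero _
  · rw [h0]

end

end Pool.Agent.H27M
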