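import Pool.Agent.H27M.Five

/-! Arithmetic: the bound `(v - 1) ^ 4 ≤ 16 lam ^ 9` outside three families. -/

namespace Pool.Agent.H27M

theorem Par.dvd1 {b v r k lam s c i : ℕ} (h : Par b v r k lam s c) (hi : lam = c + 1 + i) :
    ((c : ℤ) + 1) ∣ (i : ℤ) * (i - 1) := by
  obtain ⟨h1, h2, h3, hk, hv, hr, _, hbk⟩ := h
  have hr' : (r : ℤ) * (c + 1) = lam * (1 + lam * c) := by exact_mod_cast hr
  have hi' : (lam : ℤ) = c + 1 + i := by exact_mod_cast hi
  refine ⟨lam ^ 2 + 1 - (c + 1) - 2 * i - r, ?_⟩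
  rw [hi'] at hr' ⊢
  linear_combination hr'

theorem Par.isq {b v r k lam s c i : ℕ} (h : Par b v r k lam s c) (hi : lam = c + 1 + i)
    (hi2 : 2 ≤ i) : lam ≤ i ^ 2 := by
  have hd := h.dvd1 hi
  have hpos : (0 : ℤ) < (i : ℤ) * (i - 1) := by
    have : (2 : ℤ) ≤ i := by exact_mod_cast hi2
    nlinarith
  have hle := Int.le_of_dvd hpos hd
  have h3 : (lam : ℤ) ≤ (i : ℤ) ^ 2 := by
    have hi' : (lam : ℤ) = c + 1 + i := by exact_mod_cast hi
    nlinarith
  exact_mod_cast h3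

theorem Par.one {b v r k lam s c : ℕ} (h : Par b v r k lam s c) (hi : lam = c + 2) :
    s = 1 := by
  obtain ⟨h1, h2, h3, hk, hv, hr, _, hbk⟩ := h
  subst hi
  have hr' : r = (c + 2) * (c + 1) := by
    have : (c + 1) * r = (c + 1) * ((c + 2) * (c + 1)) := by
      calc (c + 1) * r = r * (c + 1) := by ring
        _ = _ := hr
        _ = _ := by ring
    exact Nat.eq_of_mul_eq_mul_left (by omega) this
  have hv' : v = 1 + s * (c + 1) ^ 2 := by rw [hv]; ring
  have hbk' : (b : ℤ) * k = v * r := by exact_mod_cast hbk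
  have hkz : (k : ℤ) = 1 + (c + 1) * s := by exact_mod_cast hk
  have hvz : (v : ℤ) = 1 + s * (c + 1) ^ 2 := by exact_mod_cast hv'
  have hrz : (r : ℤ) = (c + 2) * (c + 1) := by exact_mod_cast hr'
  have hd : (k : ℤ) ∣ (s : ℤ) ^ 2 - 1 := by
    refine ⟨s ^ 3 * (c + 1) ^ 2 * (c + 2) - (k ^ 2 - 3 * k + 3 - s ^ 2) - s ^ 3 * b, ?_⟩
    rw [hvz, hrz] at hbk'
    have e : (k : ℤ) * (s ^ 3 * (c + 1) ^ 2 * (c + 2) - (k ^ 2 - 3 * k + 3 - s ^ 2) - s ^ 3 * b) =
        k * (s ^ 3 * (c + 1) ^ 2 * (c + 2) - (k ^ 2 - 3 * k + 3 - s ^ 2)) - s ^ 3 * (b * k) := by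
      ring
    rw [e, hbk', hkz]
    ring
  by_contra hs
  have hs2 : 2 ≤ s := by omega
  have hpos : (0 : ℤ) < (s : ℤ) ^ 2 - 1 := by
    have : (2 : ℤ) ≤ s := by exact_mod_cast hs2
    nlinarith
  have hle := Int.le_of_dvd hpos hd
  rw [hkz] at hle
  have h2' : (s : ℤ) ≤ c := by exact_mod_cast h2
  have hs0 : (2 : ℤ) ≤ s := by exact_mod_cast hs2
  nlinarith

/-- The exact form of the theorem of Doyen and Hubaut. -/
theorem Par.dhexact {b v r k lam s c : ℕ} (h : Par b v r k lam s c) (hb : v < b)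
    (hdh : (s + 1) ∣ k ∨ (s + 1) * r ≤ k * lam + (s + 1)) (hc : c + 1 = lam)
    (hne : s + 1 ≠ c) : lam = (s + 1) ^ 2 + 1 ∨ lam = (s + 1) ^ 3 + (s + 1) + 1 := by
  have hsc := h.not_sym hb hc
  have hsq := h.dhcase hb hdh hc hne
  have hzd := fun t ht => h.zero_dvd (t := t) hc.symm ht
  obtain ⟨h1, h2, h3, hk, hv, hr, _, hbk⟩ := h
  subst hc
  have hr' : r = 1 + (c + 1) * c := by
    have : (c + 1) * r = (c + 1) * (1 + (c + 1) * c) := by
      rw [← hr]; ring
    exact Nat.eq_of_mul_eq_mul_left (by omega) this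
  rcases hdh with hd | hd
  · -- `s + 1` divides `c`
    have hdc : s + 1 ∣ c := by
      have e : k + c = (s + 1) * (c + 1) := by rw [hk]; ring
      exact (Nat.dvd_add_right hd).1 (e ▸ Dvd.intro _ rfl)
    obtain ⟨m, hm⟩ := hdc
    have hms : s + 1 ≤ m := by
      rw [hm, pow_two] at hsq
      exact Nat.le_of_mul_le_mul_left hsq (by omega)
    rcases hms.lt_or_eq with hlt | heq
    · right
      have ht : c + 1 = s + 1 + (c - s) := by omega
      have hz := hzd (c - s) ht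
      have htz : ((c - s : ℕ) : ℤ) = m * (s + 1) - s := by
        have : s ≤ c := h2
        push_cast [Nat.cast_sub this]
        rw [hm]; push_cast; ring
      have hkz : (k : ℤ) = (s + 1) * (1 + m * s) := by
        rw [hk, hm]; push_cast; ring
      rw [htz, hkz] at hz
      have e1 : ((m : ℤ) * (s + 1) - s) * (m * (s + 1) - s - 1) =
          (s + 1) * ((m * (s + 1) - s) * (m - 1)) := by ring
      rw [e1] at hz
      have hs0 : ((s : ℤ) + 1) ≠ 0 := by positivity
      have hz2 := (mul_dvd_mul_iff_left hs0).1 hz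
      have hz3 : (1 + (m : ℤ) * s) ∣ (m - 1) * (m - s - 1) := by
        have e2 : ((m : ℤ) - 1) * (m - s - 1) = (m * (s + 1) - s) * (m - 1) -
          (1 + m * s) * (m - 1) := by ring
        rw [e2]
        exact dvd_sub hz2 (Dvd.intro _ rfl)
      obtain ⟨a, ha⟩ := hz3
      have hmz : (s : ℤ) + 2 ≤ m := by
        have : s + 2 ≤ m := by omega
        exact_mod_cast this
      have hsz : (1 : ℤ) ≤ s := by exact_mod_cast h1
      have hapos : 0 < a := by
        by_contra hcon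
        push Not at hcon
        nlinarith
      have hg : a - (s + 1) = m * (m - s - 2 - a * s) := by linear_combination -ha
      have hmfin : (m : ℤ) = s ^ 2 + 2 * s + 2 := by
        rcases lt_trichotomy ((m : ℤ) - s - 2 - a * s) 0 with hg0 | hg0 | hg0
        · exfalso
          have : (m : ℤ) * (m - s - 2 - a * s) ≤ m * (-1) :=
            mul_le_mul_of_nonneg_left (by linarith) (by linarith)
          linarith
        · rw [hg0] at hg
          have : a = s + 1 := by linarith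
          subst this
          linarith
        · exfalso
          have h8 : (m : ℤ) * 1 ≤ m * (m - s - 2 - a * s) :=
            mul_le_mul_of_nonneg_left (by linarith) (by linarith)
          have h9 : (m : ℤ) + s + 1 ≤ a := by linarith
          have h10 : (1 + (m : ℤ) * s) * (m + s + 1) ≤ (1 + m * s) * a :=
            mul_le_mul_of_nonneg_left h9 (by positivity)
          nlinarith
      have hmn : m = s ^ 2 + 2 * s + 2 := by exact_mod_cast hmfin
      rw [hm, hmn]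
      ring
    · left
      rw [hm, ← heq]
      ring
  · exfalso
    rw [hr', hk] at hd
    have h5 : (c + 1) * ((s + 1) * c) ≤ (c + 1) * (1 + (c + 1) * s) := by nlinarith
    have h6 := Nat.le_of_mul_le_mul_left h5 (by omega)
    apply hne
    nlinarith

theorem Par.key {b v r k lam s c i : ℕ} (h : Par b v r k lam s c)
    (hineq : (s + 1) * (k * lam) + k ≤ (s + 1) * r + k * k) (hi : lam = c + 1 + i) :
    (i : ℤ) * (c + 1) * (s + 1) * ((c + 1) * (s - 2) - (i - 1)) ≤
      (c + 1) ^ 2 * c - (s + 1) * ((c + 1 + i) * (c + i)) := by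
  obtain ⟨h1, h2, h3, hk, hv, hr, _, hbk⟩ := h
  subst hi
  zify at *
  have hK : ((s : ℤ) + 1) * (k * (c + 1 + i)) * (c + 1) + k * (c + 1) ≤
      (s + 1) * ((c + 1 + i) * (1 + (c + 1 + i) * c)) + k * k * (c + 1) := by
    have := mul_le_mul_of_nonneg_right hineq (show (0 : ℤ) ≤ c + 1 by positivity)
    rw [← hr]
    nlinarith
  rw [hk] at hK
  nlinarith

theorem Par.small2 {b v r k lam s c i : ℕ} (h : Par b v r k lam s c)
    (hineq : (s + 1) * (k * lam) + k ≤ (s + 1) * r + k * k) (hi : lam = c + 1 + i)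
    (hi2 : 2 ≤ i) : (c + 1) * s < 2 * lam ∨ (3 ≤ s ∧ (s = 3 ∨ s ^ 4 ≤ 16 * lam)) := by
  have hkey := h.key hineq hi
  have hisq := h.isq hi hi2
  by_cases hcs : (c + 1) * s < 2 * lam
  · exact Or.inl hcs
  right
  push Not at hcs
  have hs3 : 3 ≤ s := by
    by_contra hcon
    have hs2 : s ≤ 2 := by omega
    have : (c + 1) * s ≤ (c + 1) * 2 := Nat.mul_le_mul_left _ hs2
    omega
  refine ⟨hs3, ?_⟩
  by_cases hs4 : s = 3
  · exact Or.inl hs4
  right
  have hs4' : 4 ≤ s := by omega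
  zify at *
  have e1 : 2 * (i : ℤ) ≤ (c + 1) * (s - 2) := by
    rw [hi] at hcs
    nlinarith
  have hY : ((c : ℤ) + 1) * (s - 2) ≤ 2 * ((c + 1) * (s - 2) - (i - 1)) := by linarith
  have hp1 : (0 : ℤ) ≤ i * (c + 1) * (s + 1) := by positivity
  have h4 := mul_le_mul_of_nonneg_left hY hp1
  have h5 : (0 : ℤ) ≤ (s + 1) * ((c + 1 + i) * (c + i)) := by positivity
  have h6 : ((c : ℤ) + 1) ^ 2 * (i * ((s + 1) * (s - 2))) ≤ (c + 1) ^ 2 * (2 * c) := by
    nlinarith
  have h7 := le_of_mul_le_mul_left h6 (by positivity)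
  have h8 : (s : ℤ) ^ 2 ≤ 2 * ((s + 1) * (s - 2)) := by nlinarith
  have h9 : (i : ℤ) * s ^ 2 ≤ 4 * c := by nlinarith
  have h9' : (i : ℤ) * s ^ 2 ≤ 4 * lam := by linarith
  have h10 : ((i : ℤ) * s ^ 2) ^ 2 ≤ (4 * lam) ^ 2 := by
    have : (0 : ℤ) ≤ i * s ^ 2 := by positivity
    nlinarith
  have h11 : (lam : ℤ) * s ^ 4 ≤ lam * (16 * lam) := by
    have : (lam : ℤ) * s ^ 4 ≤ (i : ℤ) ^ 2 * s ^ 4 :=
      mul_le_mul_of_nonneg_right hisq (by positivity)
    nlinarith
  exact le_of_mul_le_mul_left h11 (by linarith)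

theorem Par.nine {b v r k lam s c : ℕ} (h : Par b v r k lam s c) (hb : v < b)
    (hineq : (s + 1) * (k * lam) + k ≤ (s + 1) * r + k * k)
    (hdh : c + 1 = lam → (s + 1) ∣ k ∨ (s + 1) * r ≤ k * lam + (s + 1))
    (hlam : 6 ≤ lam) (hne : ¬ (c + 1 = lam ∧ s + 1 = c)) :
    (∃ l, 2 ≤ l ∧ (lam = l ^ 2 + 1 ∨ lam = l ^ 3 + l + 1) ∧ k = 1 + lam * (l - 1) ∧
      r = 1 + lam * (lam - 1) ∧ v = 1 + (l - 1) * r ∧ b * k = v * r) ∨
    (v - 1) ^ 4 ≤ 16 * lam ^ 9 := by
  have hp := h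
  obtain ⟨h1, h2, h3, hk, hv, hr, _, hbk⟩ := h
  rcases h3.lt_or_eq with hc | hc
  · right
    have e2 : v - 1 = s * (1 + lam * c) := by omega
    rw [e2]
    obtain ⟨i, hi⟩ : ∃ i, lam = c + 1 + i := ⟨lam - (c + 1), by omega⟩
    have hA : 1 + lam * c ≤ lam ^ 2 := by
      rw [hi]; nlinarith
    have hA4 : (1 + lam * c) ^ 4 ≤ (lam ^ 2) ^ 4 := Nat.pow_le_pow_left hA 4
    -- if `s ^ 4 ≤ 16 lam` we are done
    have fin : s ^ 4 ≤ 16 * lam → (s * (1 + lam * c)) ^ 4 ≤ 16 * lam ^ 9 := by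
      intro hs
      calc (s * (1 + lam * c)) ^ 4 = s ^ 4 * (1 + lam * c) ^ 4 := by ring
        _ ≤ (16 * lam) * (lam ^ 2) ^ 4 := Nat.mul_le_mul hs hA4
        _ = 16 * lam ^ 9 := by ring
    rcases Nat.lt_or_ge i 2 with hi2 | hi2
    · have hs1 := hp.one (by omega)
      apply fin
      rw [hs1]; omega
    · rcases hp.small2 hineq hi hi2 with h4 | ⟨_, h4 | h4⟩
      · have h5 : s * (1 + lam * c) ≤ 2 * lam ^ 2 := by
          have a1 : lam * ((c + 1) * s) ≤ lam * (2 * lam) := Nat.mul_le_mul_left _ h4.le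
          have a2 : s * (1 + lam * c) + lam * s = lam * ((c + 1) * s) + s := by ring
          have a3 : s ≤ lam * s := Nat.le_mul_of_pos_left _ (by omega)
          nlinarith
        calc (s * (1 + lam * c)) ^ 4 ≤ (2 * lam ^ 2) ^ 4 := Nat.pow_le_pow_left h5 4
          _ = 16 * lam ^ 8 * 1 := by ring
          _ ≤ 16 * lam ^ 8 * lam := Nat.mul_le_mul_left _ (by omega)
          _ = 16 * lam ^ 9 := by ring
      · apply fin
        rw [h4]; omega
      · exact fin h4
  · left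
    have hex := hp.dhexact hb (hdh hc) hc (fun e => hne ⟨hc, e⟩)
    have hr' : r = 1 + lam * (lam - 1) := by
      have e3 : lam - 1 = c := by omega
      rw [e3]
      have : (c + 1) * r = (c + 1) * (1 + lam * c) := by
        calc (c + 1) * r = r * (c + 1) := by ring
          _ = lam * (1 + lam * c) := hr
          _ = _ := by rw [hc]
      exact Nat.eq_of_mul_eq_mul_left (by omega) this
    have e1 : s + 1 - 1 = s := by omega
    refine ⟨s + 1, by omega, hex, ?_, hr', ?_, hbk⟩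
    · rw [e1, hk, hc]
    · rw [e1, hr', hv]
      have e3 : lam - 1 = c := by omega
      rw [e3]

end Pool.Agent.H27M
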