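import Pool.Agent.H27M.Lines

/-! Colines in few blocks. -/

open Finset

namespace Pool.Agent.H27M

section
variable {α : Type*} [Fintype α] [DecidableEq α] {Bl : Finset (Finset α)} {r k lam : ℕ}

/-- A full sunflower of blocks through two points. -/
structure Pen (Bl : Finset (Finset α)) (k : ℕ) (x y : α) (F : Finset α)
    (T : Finset (Finset α)) : Prop where
  sub : T ⊆ Bl.filter (fun B => x ∈ B ∧ y ∈ B)
  two : 2 ≤ T.card
  hx : x ∈ F
  hy : y ∈ F
  hF : ∀ B ∈ T, F ⊆ B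
  int : ∀ B ∈ T, ∀ B' ∈ T, B ≠ B' → B ∩ B' = F
  cov : ∀ z, ∃ B ∈ T, z ∈ B
  all : ∀ B ∈ Bl.filter (fun B => x ∈ B ∧ y ∈ B), F ⊆ B → B ∈ T
  lt : F.card < k

theorem HD.pencil3 (h : HD Bl r k lam) {x y : α}
    {C : Finset α} (hC : C ∈ Bl.filter (fun B => x ∈ B ∧ y ∈ B)) (G : Finset α)
    (hG : ∃ D ∈ Bl.filter (fun B => x ∈ B ∧ y ∈ B), D ≠ C ∧ ¬ (D ∩ C ⊆ G)) :
    ∃ (F : Finset α) (T : Finset (Finset α)), Pen Bl k x y F T ∧ C ∈ T ∧ ¬ (F ⊆ G) := by
  classical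
  set L := Bl.filter (fun B => x ∈ B ∧ y ∈ B) with hL
  obtain ⟨D₀, hD₀L, hD₀C, hD₀G⟩ := hG
  have hne : (L.filter (fun D => D ≠ C ∧ ¬ (D ∩ C ⊆ G))).Nonempty :=
    ⟨D₀, Finset.mem_filter.2 ⟨hD₀L, hD₀C, hD₀G⟩⟩
  obtain ⟨B₁, hmem, hmax⟩ := Finset.exists_max_image _ (fun B => (B ∩ C).card) hne
  rw [Finset.mem_filter] at hmem
  obtain ⟨hB1L, hB1C, hB1G⟩ := hmem
  have hmL : ∀ B ∈ L, B ∈ Bl ∧ x ∈ B ∧ y ∈ B := fun B hB => by
    rw [hL, Finset.mem_filter] at hB; exact hB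
  set F := B₁ ∩ C with hF
  have hFC : F ⊆ C := Finset.inter_subset_right
  have hFB1 : F ⊆ B₁ := Finset.inter_subset_left
  have hxF : x ∈ F := Finset.mem_inter.2 ⟨(hmL _ hB1L).2.1, (hmL _ hC).2.1⟩
  have hyF : y ∈ F := Finset.mem_inter.2 ⟨(hmL _ hB1L).2.2, (hmL _ hC).2.2⟩
  have hFk : F.card < k := by
    rw [← h.hk _ (hmL _ hC).1]
    apply Finset.card_lt_card
    rw [Finset.ssubset_iff_subset_ne]
    refine ⟨hFC, fun heq => hB1C ?_⟩
    have hs : C ⊆ B₁ := by rw [← heq]; exact hFB1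
    exact (Finset.eq_of_subset_of_card_le hs
      (by rw [h.hk _ (hmL _ hB1L).1, h.hk _ (hmL _ hC).1])).symm
  obtain ⟨c, hcC, hcF⟩ : ∃ c ∈ C, c ∉ F := by
    by_contra hall
    push Not at hall
    have := Finset.card_le_card (show C ⊆ F from hall)
    rw [h.hk _ (hmL _ hC).1] at this
    omega
  have hwith : ∀ B ∈ L, F ⊆ B → B ≠ C → B ∩ C = F := by
    intro B hB hFB hBC
    symm
    apply Finset.eq_of_subset_of_card_le (Finset.subset_inter hFB hFC)
    apply hmax B (Finset.mem_filter.2 ⟨hB, hBC, ?_⟩)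
    intro hs
    exact hB1G ((Finset.subset_inter hFB hFC).trans hs)
  refine ⟨F, L.filter (fun B => F ⊆ B), ⟨Finset.filter_subset _ _, ?_, hxF, hyF,
    fun B hB => (Finset.mem_filter.1 hB).2, ?_, ?_,
    fun B hB hFB => Finset.mem_filter.2 ⟨hB, hFB⟩, hFk⟩, Finset.mem_filter.2 ⟨hC, hFC⟩, hB1G⟩
  · rw [← Finset.card_pair hB1C]
    apply Finset.card_le_card
    intro B hB
    rw [Finset.mem_insert, Finset.mem_singleton] at hB
    rw [Finset.mem_filter]
    rcases hB with rfl | rfl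
    · exact ⟨hB1L, hFB1⟩
    · exact ⟨hC, hFC⟩
  · intro B hB B' hB' hne'
    rw [Finset.mem_filter] at hB hB'
    by_cases hBC : B = C
    · subst hBC
      rw [Finset.inter_comm]
      exact hwith B' hB'.1 hB'.2 (Ne.symm hne')
    by_cases hB'C : B' = C
    · subst hB'C
      exact hwith B hB.1 hB.2 hBC
    apply Finset.Subset.antisymm _ (Finset.subset_inter hB.2 hB'.2)
    intro z hz
    have hcB : c ∉ B := by
      intro hc
      apply hcF
      rw [← hwith B hB.1 hB.2 hBC]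
      exact Finset.mem_inter.2 ⟨hc, hcC⟩
    have hcB' : c ∉ B' := by
      intro hc
      apply hcF
      rw [← hwith B' hB'.1 hB'.2 hB'C]
      exact Finset.mem_inter.2 ⟨hc, hcC⟩
    obtain ⟨D, hD, hcD, hsub⟩ := h.ex B (hmL B hB.1).1 B' (hmL B' hB'.1).1 hne' c hcB hcB'
    have hFD : F ⊆ D := (Finset.subset_inter hB.2 hB'.2).trans hsub
    have hDL : D ∈ L := by
      rw [hL, Finset.mem_filter]
      exact ⟨hD, hFD hxF, hFD hyF⟩
    have hDC : D = C := by
      by_contra hne2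
      apply hcF
      rw [← hwith D hDL hFD hne2]
      exact Finset.mem_inter.2 ⟨hcD, hcC⟩
    rw [← hwith B hB.1 hB.2 hBC]
    refine Finset.mem_inter.2 ⟨(Finset.mem_inter.1 hz).1, ?_⟩
    rw [← hDC]
    exact hsub hz
  · intro z
    by_cases h1 : z ∈ B₁
    · exact ⟨B₁, Finset.mem_filter.2 ⟨hB1L, hFB1⟩, h1⟩
    by_cases h2 : z ∈ C
    · exact ⟨C, Finset.mem_filter.2 ⟨hC, hFC⟩, h2⟩
    obtain ⟨B, hB, hz, hsub⟩ := h.ex _ (hmL _ hB1L).1 _ (hmL _ hC).1 hB1C z h1 h2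
    exact ⟨B, Finset.mem_filter.2 ⟨by
      rw [hL, Finset.mem_filter]; exact ⟨hB, hsub hxF, hsub hyF⟩, hsub⟩, hz⟩

theorem Pen.inter_le {x y : α} {F F' : Finset α} {T T' : Finset (Finset α)}
    (p : Pen Bl k x y F T) (p' : Pen Bl k x y F' T') (hne : T ≠ T') : (T ∩ T').card ≤ 1 := by
  rw [Finset.card_le_one]
  intro B hB B' hB'
  by_contra hBB'
  rw [Finset.mem_inter] at hB hB'
  have e1 := p.int B hB.1 B' hB'.1 hBB'
  have e2 := p'.int B hB.2 B' hB'.2 hBB'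
  have e3 : F = F' := e1.symm.trans e2
  apply hne
  ext E
  constructor
  · intro hE
    exact p'.all E (p.sub hE) (e3 ▸ p.hF E hE)
  · intro hE
    exact p.all E (p'.sub hE) (e3 ▸ p'.hF E hE)

theorem HD.pen_other (h : HD Bl r k lam) {x y : α} {F : Finset α} {T : Finset (Finset α)}
    (p : Pen Bl k x y F T) (hT : T ≠ Bl.filter (fun B => x ∈ B ∧ y ∈ B)) {C : Finset α}
    (hC : C ∈ T) : ∃ (F' : Finset α) (T' : Finset (Finset α)), Pen Bl k x y F' T' ∧ C ∈ T' ∧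
      T' ≠ T := by
  have hmL : ∀ B ∈ Bl.filter (fun B => x ∈ B ∧ y ∈ B), B ∈ Bl ∧ x ∈ B ∧ y ∈ B := fun B hB => by
    rw [Finset.mem_filter] at hB; exact hB
  obtain ⟨E, hE, hET⟩ : ∃ E ∈ Bl.filter (fun B => x ∈ B ∧ y ∈ B), E ∉ T := by
    by_contra hcon
    push Not at hcon
    exact hT (Finset.Subset.antisymm p.sub hcon)
  have hCL := p.sub hC
  have hEC : E ≠ C := fun e => hET (e ▸ hC)
  obtain ⟨z, hzE, hzC⟩ : ∃ z ∈ E, z ∉ C := by
    by_contra hcon
    push Not at hcon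
    exact hEC (Finset.eq_of_subset_of_card_le hcon
      (by rw [h.hk _ (hmL _ hE).1, h.hk _ (hmL _ hCL).1]))
  obtain ⟨Ci, hCi, hzCi⟩ := p.cov z
  have hCiC : Ci ≠ C := fun e => hzC (e ▸ hzCi)
  obtain ⟨w, hwC, hwF⟩ : ∃ w ∈ C, w ∉ F := by
    by_contra hall
    push Not at hall
    have := Finset.card_le_card (show C ⊆ F from hall)
    rw [h.hk _ (hmL _ hCL).1] at this
    have := p.lt
    omega
  have hD : ∃ D ∈ Bl.filter (fun B => x ∈ B ∧ y ∈ B), D ≠ C ∧ ¬ (D ∩ C ⊆ F) := by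
    by_cases hwE : w ∈ E
    · exact ⟨E, hE, hEC, fun hs => hwF (hs (Finset.mem_inter.2 ⟨hwE, hwC⟩))⟩
    have hwCi : w ∉ Ci := by
      intro hw
      apply hwF
      rw [← p.int Ci hCi C hC hCiC]
      exact Finset.mem_inter.2 ⟨hw, hwC⟩
    have hECi : E ≠ Ci := fun e => hET (e ▸ hCi)
    obtain ⟨D, hD, hwD, hsub⟩ := h.ex E (hmL _ hE).1 Ci (hmL _ (p.sub hCi)).1 hECi w hwE hwCi
    refine ⟨D, ?_, ?_, fun hs => hwF (hs (Finset.mem_inter.2 ⟨hwD, hwC⟩))⟩
    · rw [Finset.mem_filter]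
      exact ⟨hD, hsub (Finset.mem_inter.2 ⟨(hmL _ hE).2.1, (hmL _ (p.sub hCi)).2.1⟩),
        hsub (Finset.mem_inter.2 ⟨(hmL _ hE).2.2, (hmL _ (p.sub hCi)).2.2⟩)⟩
    · intro e
      apply hzC
      rw [← e]
      exact hsub (Finset.mem_inter.2 ⟨hzE, hzCi⟩)
  obtain ⟨F', T', p', hCT', hF'⟩ := h.pencil3 hCL F hD
  refine ⟨F', T', p', hCT', ?_⟩
  intro e
  apply hF'
  obtain ⟨B, hB, B', hB', hne⟩ := Finset.one_lt_card.1 (show 1 < T.card by have := p.two; omega)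
  rw [← p.int B hB B' hB' hne, ← p'.int B (e ▸ hB) B' (e ▸ hB') hne]

end

/-- Counting a family of sets which pairwise have at most one common element. -/
theorem union_bound {β : Type*} [DecidableEq β] (T L : Finset β) (g : β → Finset β) (t : ℕ)
    (ht : T.card = t) (hTL : T ⊆ L) (h1 : ∀ C ∈ T, g C ⊆ L) (h2 : ∀ C ∈ T, t ≤ (g C).card)
    (h3 : ∀ C ∈ T, (g C ∩ T).card ≤ 1)
    (h4 : ∀ C ∈ T, ∀ C' ∈ T, C ≠ C' → (g C ∩ g C').card ≤ 1) : t * (t + 1) ≤ 2 * L.card := by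
  have key : ∀ S : Finset β, S ⊆ T →
      (S.card : ℤ) * (2 * t - 1 - S.card) ≤ 2 * ((S.biUnion (fun C => g C \ T)).card : ℤ) := by
    intro S
    induction S using Finset.induction_on with
    | empty => intro _; simp
    | insert C S hCS ih =>
      intro hs
      have hST : S ⊆ T := (Finset.subset_insert C S).trans hs
      have hCT : C ∈ T := hs (Finset.mem_insert_self C S)
      have ih' := ih hST
      rw [Finset.biUnion_insert, Finset.card_insert_of_notMem hCS]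
      set U := S.biUnion (fun C => g C \ T) with hU
      have a1 := Finset.card_union_add_card_inter (g C \ T) U
      have a2 : ((g C \ T) ∩ U).card ≤ S.card := by
        have hsub : (g C \ T) ∩ U ⊆ S.biUnion (fun C' => g C ∩ g C') := by
          intro E hE
          rw [Finset.mem_inter, hU, Finset.mem_biUnion] at hE
          obtain ⟨hE1, C', hC', hE2⟩ := hE
          rw [Finset.mem_biUnion]
          exact ⟨C', hC', Finset.mem_inter.2 ⟨(Finset.mem_sdiff.1 hE1).1,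
            (Finset.mem_sdiff.1 hE2).1⟩⟩
        calc ((g C \ T) ∩ U).card ≤ (S.biUnion (fun C' => g C ∩ g C')).card :=
              Finset.card_le_card hsub
          _ ≤ ∑ C' ∈ S, (g C ∩ g C').card := Finset.card_biUnion_le
          _ ≤ ∑ _C' ∈ S, 1 := Finset.sum_le_sum (fun C' hC' =>
              h4 C hCT C' (hST hC') (fun e => hCS (e ▸ hC')))
          _ = S.card := by simp
      have a3 : (g C \ T).card + (g C ∩ T).card = (g C).card := Finset.card_sdiff_add_card_inter _ _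
      have a4 := h2 C hCT
      have a5 := h3 C hCT
      push_cast
      have a6 : (t : ℤ) - 1 - S.card ≤ ((g C \ T ∪ U).card : ℤ) - U.card := by
        have : t ≤ (g C \ T).card + 1 := by omega
        zify at a1 a2 this
        linarith
      nlinarith
  have h5 := key T (Finset.Subset.refl T)
  have hdisj : Disjoint T (T.biUnion (fun C => g C \ T)) := by
    rw [Finset.disjoint_right]
    intro E hE
    rw [Finset.mem_biUnion] at hE
    obtain ⟨C, _, hE⟩ := hE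
    exact (Finset.mem_sdiff.1 hE).2
  have hsub : T ∪ T.biUnion (fun C => g C \ T) ⊆ L := by
    apply Finset.union_subset hTL
    intro E hE
    rw [Finset.mem_biUnion] at hE
    obtain ⟨C, hC, hE⟩ := hE
    exact h1 C hC (Finset.mem_sdiff.1 hE).1
  have h6 := Finset.card_le_card hsub
  rw [Finset.card_union_of_disjoint hdisj] at h6
  rw [ht] at h5 h6
  zify at h6 ⊢
  nlinarith

section
variable {α : Type*} [Fintype α] [DecidableEq α] {Bl : Finset (Finset α)} {r k lam : ℕ}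

theorem HD.split2 (h : HD Bl r k lam) (hlam : 2 ≤ lam) :
    (∃ f t, 2 ≤ f ∧ f < k ∧ 2 ≤ t ∧ t * (t + 1) ≤ 2 * lam ∧
      Fintype.card α = f + t * (k - f)) ∨ AllSun Bl k := by
  classical
  by_cases hall : AllSun Bl k
  · exact Or.inr hall
  left
  unfold AllSun at hall
  push Not at hall
  obtain ⟨x, y, hxy, hno⟩ := hall
  set L := Bl.filter (fun B => x ∈ B ∧ y ∈ B) with hL
  have hLc : L.card = lam := h.hl x y hxy
  have hmL : ∀ B ∈ L, B ∈ Bl ∧ x ∈ B ∧ y ∈ B := fun B hB => by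
    rw [hL, Finset.mem_filter] at hB; exact hB
  have hTne : ∀ F T, Pen Bl k x y F T → T ≠ L := by
    intro F T p e
    subst e
    have := hno F p.hF p.int p.cov
    have := p.lt
    omega
  -- there is a pencil
  have hex : ∃ T ∈ L.powerset, ∃ F, Pen Bl k x y F T := by
    obtain ⟨B, hB, B', hB', hne⟩ := Finset.one_lt_card.1 (show 1 < L.card by omega)
    obtain ⟨F, T, p, _, _⟩ := h.pencil3 hB' ∅ ⟨B, hB, hne, fun hs => by
      have := hs (Finset.mem_inter.2 ⟨(hmL _ hB).2.1, (hmL _ hB').2.1⟩)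
      simp at this⟩
    exact ⟨T, Finset.mem_powerset.2 p.sub, F, p⟩
  have hne : (L.powerset.filter (fun T => ∃ F, Pen Bl k x y F T)).Nonempty := by
    obtain ⟨T, hT, hp⟩ := hex
    exact ⟨T, Finset.mem_filter.2 ⟨hT, hp⟩⟩
  obtain ⟨T, hTm, hmin⟩ := Finset.exists_min_image _ Finset.card hne
  rw [Finset.mem_filter, Finset.mem_powerset] at hTm
  obtain ⟨hTL, F, p⟩ := hTm
  have hoth : ∀ C : Finset α, ∃ T' : Finset (Finset α), C ∈ T →
      (∃ F', Pen Bl k x y F' T') ∧ C ∈ T' ∧ T' ≠ T := by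
    intro C
    by_cases hC : C ∈ T
    · obtain ⟨F', T', p', h1, h2⟩ := h.pen_other p (hTne F T p) hC
      exact ⟨T', fun _ => ⟨⟨F', p'⟩, h1, h2⟩⟩
    · exact ⟨∅, fun hc => absurd hc hC⟩
  choose g hg using hoth
  have hcount := union_bound T L g T.card rfl hTL
    (fun C hC => by
      obtain ⟨⟨F', p'⟩, _, _⟩ := hg C hC
      exact p'.sub)
    (fun C hC => by
      obtain ⟨⟨F', p'⟩, _, _⟩ := hg C hC
      exact hmin _ (Finset.mem_filter.2 ⟨Finset.mem_powerset.2 p'.sub, F', p'⟩))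
    (fun C hC => by
      obtain ⟨⟨F', p'⟩, _, hne'⟩ := hg C hC
      exact p'.inter_le p hne')
    (fun C hC C' hC' hCC' => by
      obtain ⟨⟨F', p'⟩, hm, hne'⟩ := hg C hC
      obtain ⟨⟨F'', p''⟩, hm', hne''⟩ := hg C' hC'
      apply p'.inter_le p''
      intro e
      have h1 := p'.inter_le p hne'
      rw [Finset.card_le_one] at h1
      exact hCC' (h1 C (Finset.mem_inter.2 ⟨hm, hC⟩) C' (Finset.mem_inter.2 ⟨e ▸ hm', hC'⟩)))
  rw [hLc] at hcount
  exact ⟨F.card, T.card, two_le_card_of_mem hxy p.hx p.hy, p.lt, p.two, hcount,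
    sun_card p.hF (fun B hB => h.hk B (hmL B (p.sub hB)).1) p.int p.cov⟩

end

end Pool.Agent.H27M
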