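import Pool.Agent.H27M.Base

/-! Either some coline lies in few blocks, or all pencils of lines are sunflowers. -/

open Finset

namespace Pool.Agent.H27M

section
variable {α : Type*} [Fintype α] [DecidableEq α] {Bl : Finset (Finset α)} {r k lam : ℕ}

/-- Counting for a pencil. -/
theorem sun_card {F : Finset α} {T : Finset (Finset α)} (hFB : ∀ B ∈ T, F ⊆ B)
    (hk : ∀ B ∈ T, B.card = k)
    (hint : ∀ B ∈ T, ∀ B' ∈ T, B ≠ B' → B ∩ B' = F) (hcov : ∀ z, ∃ B ∈ T, z ∈ B) :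
    Fintype.card α = F.card + T.card * (k - F.card) := by
  have hU : Finset.univ \ F = T.biUnion (fun B => B \ F) := by
    ext z
    simp only [Finset.mem_sdiff, Finset.mem_univ, true_and, Finset.mem_biUnion]
    constructor
    · intro hz
      obtain ⟨B, hB, hzB⟩ := hcov z
      exact ⟨B, hB, hzB, hz⟩
    · rintro ⟨B, _, _, hz⟩
      exact hz
  have hcard : (Finset.univ \ F).card = T.card * (k - F.card) := by
    rw [hU, Finset.card_biUnion]
    · have hc : ∀ B ∈ T, (B \ F).card = k - F.card := by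
        intro B hB
        rw [Finset.card_sdiff_of_subset (hFB B hB), hk B hB]
      rw [Finset.sum_congr rfl hc, Finset.sum_const, smul_eq_mul]
    · intro B hB B' hB' hBB'
      show Disjoint (B \ F) (B' \ F)
      rw [Finset.disjoint_left]
      intro z hz hz'
      rw [Finset.mem_sdiff] at hz hz'
      apply hz.2
      rw [← hint B hB B' hB' hBB']
      exact Finset.mem_inter.2 ⟨hz.1, hz'.1⟩
  rw [← hcard, Finset.card_sdiff_of_subset (Finset.subset_univ F), Finset.card_univ]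
  have : F.card ≤ Fintype.card α := Finset.card_le_univ F
  omega

/-- Every block through two points is in a sunflower of blocks through these points which
covers all points. -/
theorem HD.pencil2 (h : HD Bl r k lam) (hlam : 2 ≤ lam) {x y : α} (hxy : x ≠ y)
    {C : Finset α} (hC : C ∈ Bl.filter (fun B => x ∈ B ∧ y ∈ B)) :
    ∃ (F : Finset α) (T : Finset (Finset α)), T ⊆ Bl.filter (fun B => x ∈ B ∧ y ∈ B) ∧ C ∈ T ∧
      2 ≤ T.card ∧ x ∈ F ∧ y ∈ F ∧ (∀ B ∈ T, F ⊆ B) ∧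
      (∀ B ∈ T, ∀ B' ∈ T, B ≠ B' → B ∩ B' = F) ∧ (∀ z, ∃ B ∈ T, z ∈ B) ∧ F.card < k := by
  set L := Bl.filter (fun B => x ∈ B ∧ y ∈ B) with hL
  have hLc : L.card = lam := h.hl x y hxy
  have hne : (L.erase C).Nonempty := by
    rw [← Finset.card_pos, Finset.card_erase_of_mem hC, hLc]
    omega
  obtain ⟨B₁, hmem, hmax⟩ := Finset.exists_max_image (L.erase C) (fun B => (B ∩ C).card) hne
  have hB1C : B₁ ≠ C := Finset.ne_of_mem_erase hmem
  have hB1L : B₁ ∈ L := Finset.mem_of_mem_erase hmem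
  have hmL : ∀ B ∈ L, B ∈ Bl ∧ x ∈ B ∧ y ∈ B := fun B hB => by
    rw [hL, Finset.mem_filter] at hB; exact hB
  set F := B₁ ∩ C with hF
  have hFC : F ⊆ C := Finset.inter_subset_right
  have hFB1 : F ⊆ B₁ := Finset.inter_subset_left
  have hxF : x ∈ F := Finset.mem_inter.2 ⟨(hmL _ hB1L).2.1, (hmL _ hC).2.1⟩
  have hyF : y ∈ F := Finset.mem_inter.2 ⟨(hmL _ hB1L).2.2, (hmL _ hC).2.2⟩
  have hFk : F.card < k := by
    rw [← h.hk _ (hmL _ hC).1]
    apply Finset.card_lt_card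
    rw [Finset.ssubset_iff_subset_ne]
    refine ⟨hFC, fun heq => hB1C ?_⟩
    have hs : C ⊆ B₁ := by rw [← heq]; exact hFB1
    exact (Finset.eq_of_subset_of_card_le hs
      (by rw [h.hk _ (hmL _ hB1L).1, h.hk _ (hmL _ hC).1])).symm
  obtain ⟨c, hcC, hcF⟩ : ∃ c ∈ C, c ∉ F := by
    by_contra hall
    push Not at hall
    have := Finset.card_le_card (show C ⊆ F from hall)
    rw [h.hk _ (hmL _ hC).1] at this
    omega
  have hwith : ∀ B ∈ L, F ⊆ B → B ≠ C → B ∩ C = F := by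
    intro B hB hFB hBC
    symm
    apply Finset.eq_of_subset_of_card_le (Finset.subset_inter hFB hFC)
    exact hmax B (Finset.mem_erase.2 ⟨hBC, hB⟩)
  refine ⟨F, L.filter (fun B => F ⊆ B), Finset.filter_subset _ _,
    Finset.mem_filter.2 ⟨hC, hFC⟩, ?_, hxF, hyF, fun B hB => (Finset.mem_filter.1 hB).2,
    ?_, ?_, hFk⟩
  · rw [← Finset.card_pair hB1C]
    apply Finset.card_le_card
    intro B hB
    rw [Finset.mem_insert, Finset.mem_singleton] at hB
    rw [Finset.mem_filter]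
    rcases hB with rfl | rfl
    · exact ⟨hB1L, hFB1⟩
    · exact ⟨hC, hFC⟩
  · intro B hB B' hB' hne'
    rw [Finset.mem_filter] at hB hB'
    by_cases hBC : B = C
    · subst hBC
      rw [Finset.inter_comm]
      exact hwith B' hB'.1 hB'.2 (Ne.symm hne')
    by_cases hB'C : B' = C
    · subst hB'C
      exact hwith B hB.1 hB.2 hBC
    apply Finset.Subset.antisymm _ (Finset.subset_inter hB.2 hB'.2)
    intro z hz
    have hcB : c ∉ B := by
      intro hc
      apply hcF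
      rw [← hwith B hB.1 hB.2 hBC]
      exact Finset.mem_inter.2 ⟨hc, hcC⟩
    have hcB' : c ∉ B' := by
      intro hc
      apply hcF
      rw [← hwith B' hB'.1 hB'.2 hB'C]
      exact Finset.mem_inter.2 ⟨hc, hcC⟩
    obtain ⟨D, hD, hcD, hsub⟩ := h.ex B (hmL B hB.1).1 B' (hmL B' hB'.1).1 hne' c hcB hcB'
    have hFD : F ⊆ D := (Finset.subset_inter hB.2 hB'.2).trans hsub
    have hDL : D ∈ L := by
      rw [hL, Finset.mem_filter]
      exact ⟨hD, hFD hxF, hFD hyF⟩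
    have hDC : D = C := by
      by_contra hne2
      apply hcF
      rw [← hwith D hDL hFD hne2]
      exact Finset.mem_inter.2 ⟨hcD, hcC⟩
    rw [← hwith B hB.1 hB.2 hBC]
    refine Finset.mem_inter.2 ⟨(Finset.mem_inter.1 hz).1, ?_⟩
    rw [← hDC]
    exact hsub hz
  · intro z
    by_cases h1 : z ∈ B₁
    · exact ⟨B₁, Finset.mem_filter.2 ⟨hB1L, hFB1⟩, h1⟩
    by_cases h2 : z ∈ C
    · exact ⟨C, Finset.mem_filter.2 ⟨hC, hFC⟩, h2⟩
    obtain ⟨B, hB, hz, hsub⟩ := h.ex _ (hmL _ hB1L).1 _ (hmL _ hC).1 hB1C z h1 h2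
    exact ⟨B, Finset.mem_filter.2 ⟨by
      rw [hL, Finset.mem_filter]; exact ⟨hB, hsub hxF, hsub hyF⟩, hsub⟩, hz⟩

theorem two_le_card_of_mem {F : Finset α} {x y : α} (hxy : x ≠ y) (hx : x ∈ F) (hy : y ∈ F) :
    2 ≤ F.card := by
  rw [← Finset.card_pair hxy]
  apply Finset.card_le_card
  intro a ha
  rw [Finset.mem_insert, Finset.mem_singleton] at ha
  rcases ha with rfl | rfl <;> assumption

theorem HD.split (h : HD Bl r k lam) (hlam : 2 ≤ lam) :
    (∃ f t, 2 ≤ f ∧ f < k ∧ 2 ≤ t ∧ 2 * t ≤ lam + 1 ∧ Fintype.card α = f + t * (k - f)) ∨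
    (∀ x y : α, x ≠ y → ∃ F : Finset α,
      (∀ B ∈ Bl.filter (fun B => x ∈ B ∧ y ∈ B), F ⊆ B) ∧
      (∀ B ∈ Bl.filter (fun B => x ∈ B ∧ y ∈ B), ∀ B' ∈ Bl.filter (fun B => x ∈ B ∧ y ∈ B),
        B ≠ B' → B ∩ B' = F) ∧
      (∀ z, ∃ B ∈ Bl.filter (fun B => x ∈ B ∧ y ∈ B), z ∈ B) ∧ F.card < k) := by
  by_cases hall : ∀ x y : α, x ≠ y → ∃ F : Finset α,
      (∀ B ∈ Bl.filter (fun B => x ∈ B ∧ y ∈ B), F ⊆ B) ∧
      (∀ B ∈ Bl.filter (fun B => x ∈ B ∧ y ∈ B), ∀ B' ∈ Bl.filter (fun B => x ∈ B ∧ y ∈ B),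
        B ≠ B' → B ∩ B' = F) ∧
      (∀ z, ∃ B ∈ Bl.filter (fun B => x ∈ B ∧ y ∈ B), z ∈ B) ∧ F.card < k
  · exact Or.inr hall
  left
  push Not at hall
  obtain ⟨x, y, hxy, hno⟩ := hall
  have hmL : ∀ B ∈ Bl.filter (fun B => x ∈ B ∧ y ∈ B), B ∈ Bl := fun B hB =>
    (Finset.mem_filter.1 hB).1
  obtain ⟨F, T, hTL, hT2, hxF, hyF, hFB, hint, hcov, hin, hFk, hv, _⟩ := h.pencil hlam hxy
  have hTne : T ≠ Bl.filter (fun B => x ∈ B ∧ y ∈ B) := by
    intro e
    rw [e] at hFB hint hcov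
    have := hno F hFB hint hcov
    omega
  obtain ⟨C, hC, hCT⟩ : ∃ C ∈ Bl.filter (fun B => x ∈ B ∧ y ∈ B), C ∉ T := by
    by_contra hcon
    push Not at hcon
    exact hTne (Finset.Subset.antisymm hTL hcon)
  obtain ⟨F', T', hTL', hCT', hT2', hxF', hyF', hFB', hint', hcov', hFk'⟩ := h.pencil2 hlam hxy hC
  have hv' := sun_card hFB' (fun B hB => h.hk B (hmL B (hTL' hB))) hint' hcov'
  have hinter : (T ∩ T').card ≤ 1 := by
    rw [Finset.card_le_one]
    intro B hB B' hB'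
    by_contra hne
    rw [Finset.mem_inter] at hB hB'
    have e1 := hint B hB.1 B' hB'.1 hne
    have e2 := hint' B hB.2 B' hB'.2 hne
    apply hCT
    apply hin C hC
    rw [← e1, e2]
    exact hFB' C hCT'
  have hun : (T ∪ T').card ≤ lam := by
    rw [← h.hl x y hxy]
    exact Finset.card_le_card (Finset.union_subset hTL hTL')
  have hadd := Finset.card_union_add_card_inter T T'
  rcases le_total T.card T'.card with hle | hle
  · exact ⟨F.card, T.card, two_le_card_of_mem hxy hxF hyF, hFk, hT2, by omega, hv⟩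
  · exact ⟨F'.card, T'.card, two_le_card_of_mem hxy hxF' hyF', hFk', hT2', by omega, hv'⟩

end

end Pool.Agent.H27M
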